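import Pool.Agent.TH117.RFM.Defs

/-!
# Geometric origin over finite fields: definitions
-/

set_option autoImplicit false

namespace Pool.Agent.TH117.RFM

open IntermediateField

/-- the determinant has finite order -/
def FinDet {Λ : Type} [Field Λ] {G : Type} [Group G] (V : FRep Λ G) : Prop :=
  ∃ n : ℕ, 0 < n ∧ ∀ g, LinearMap.det (V.ρ g) ^ n = 1

/-- there is a nonzero equivariant map from `M` to `N` -/
def Maps {Λ : Type} [Field Λ] {G : Type} [Group G] (M N : FRep Λ G) : Prop :=
  ∃ f, Equi M N f ∧ f ≠ 0

variable {P Ω : Type} [Field P] [Field Ω] [Algebra P Ω]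

/-- restriction to the field `K ac(P)`, that is, to the geometric fundamental group -/
abbrev geo {Λ : Type} [Field Λ] {K : IntermediateField P Ω} (V : Rp Λ K) : Rp Λ (K ⊔ ac ⊥) :=
  up le_sup_left V

/-- `U` is geometrically constant -/
def GeoTriv {Λ : Type} [Field Λ] {K : IntermediateField P Ω} (U : Rp Λ K) : Prop := Triv (geo U)

/-- `V` and `V'` are geometrically isomorphic -/
def GeoIso {Λ : Type} [Field Λ] {K : IntermediateField P Ω} (V V' : Rp Λ K) : Prop :=
  Iso (geo V) (geo V')

/-- `V` is geometrically a subquotient of `H` -/
def GeoSubQuo {Λ : Type} [Field Λ] {K : IntermediateField P Ω} (V : Rp Λ K)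
    (H : Rp Λ (K ⊔ ac ⊥)) : Prop := SubQuo (geo V) H

/-- there is a nonzero map over `L` from `V` to `Hom(U, W)` -/
def MapsHom {Λ : Type} [Field Λ] {K L : IntermediateField P Ω} (h : K ≤ L) (V : Rp Λ K)
    (U W : Rp Λ L) : Prop := Maps (up h V) (lhom U W)

/-- the variables `s` are finitely many and algebraically independent over `P`, `F = P(s)`, and `x`
is transcendental over `F` -/
def Coordinates (s : Set Ω) (F : IntermediateField P Ω) (x : Ω) : Prop :=
  s.Finite ∧ AlgebraicIndependent P ((↑) : s → Ω) ∧ F = adjoin P s ∧ Transcendental F x

variable (P Ω) (Λ : Type) [Field Λ]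

/-- The data: in addition to a theory, the cohomology of arbitrary varieties and lisse sheaves on
affine spaces. -/
structure ArithData extends Theory P Ω Λ where
  /-- the representations of the Galois group of `K` which are isomorphic to a subquotient of a
  Tate twist `H^i(Y, Λ)(n)` for a variety `Y` over `K` -/
  Var : ∀ K : IntermediateField P Ω, Rp Λ K → Prop
  /-- the representations of the Galois group of `F(x)`, `F = P(s)`, given by lisse `Λ`-sheaves on
  the affine space over `P` with coordinates `x` and the elements of `s` -/
  Space : ∀ (F : IntermediateField P Ω), Set Ω → ∀ x : Ω, Rp Λ (line F x) → Prop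

variable {P Ω Λ} (T : ArithData P Ω Λ)

/-- `V` is given by a lisse sheaf, irreducible, and its determinant has finite order -/
def ArithData.Good {K : IntermediateField P Ω} (V : Rp Λ K) : Prop :=
  T.Lisse ⊥ K V ∧ Irr V ∧ FinDet V

/-- `U` is given by a lisse sheaf, irreducible, and geometrically constant -/
def ArithData.Const {K : IntermediateField P Ω} (U : Rp Λ K) : Prop :=
  T.Lisse ⊥ K U ∧ Irr U ∧ GeoTriv U

/-- subquotients -/
def ArithData.VarSub : Prop :=
  ∀ {K : IntermediateField P Ω} (V W : Rp Λ K), SubQuo V W → T.Var K W → T.Var K V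

/-- a variety over the finite extension `L` is a variety over `K` -/
def ArithData.VarInd : Prop :=
  ∀ {K L : IntermediateField P Ω}, FinExt K L → ∀ (h : K ≤ L) V N, T.Var L V → Ind h V N →
    T.Var K N

/-- alterations (de Jong) and weights: an irreducible subquotient of the cohomology of a variety is,
up to a Tate twist, one of the cohomology of a smooth projective scheme -/
def ArithData.VarGeom : Prop :=
  ∀ {K : IntermediateField P Ω}, FG ⊥ K → ∀ V, Irr V → T.Var K V →
    ∃ H, T.Coh (K ⊔ ac ⊥) H ∧ GeoSubQuo V H

/-- Deligne: after a twist by a character of the Galois group of the field of constants the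
determinant has finite order; the twist does not change the restriction to `K ac(P)` -/
def ArithData.Twist : Prop :=
  ∀ {K : IntermediateField P Ω}, FG ⊥ K → ∀ V, T.Lisse ⊥ K V → Irr V →
    ∃ V', T.Good V' ∧ GeoIso V V'

/-- Let `V` be irreducible over `K` with determinant of finite order, `L` finite over `K`, `U` an
irreducible geometrically constant sheaf over `L` and `W` the cohomology of a smooth projective
scheme over `L`. If there is a nonzero map from `V` to `Hom(U, W)`, then the Frobenius eigenvalues
of `U` are Weil numbers (L. Lafforgue, Deligne), hence occur in the cohomology of abelian varieties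
over finite fields up to Tate twists (Honda, Tate), and `Hom(U, W)` is a subquotient of a Tate twist
of the cohomology of a variety. -/
def ArithData.Weights : Prop :=
  ∀ {K L : IntermediateField P Ω} (h : K ≤ L), FinExt K L → FG ⊥ K → ∀ (V : Rp Λ K) (U W : Rp Λ L),
    T.Good V → T.Const U → T.Coh L W → MapsHom h V U W → T.Var L (lhom U W)

/-- Kedlaya: a variety over `P` of positive dimension has a dense open subset which is finite étale
over an affine space; direct image -/
def ArithData.Kedlaya : Prop :=
  ∀ {K : IntermediateField P Ω}, FG ⊥ K → ¬ K ≤ ac ⊥ → ∀ V, T.Lisse ⊥ K V →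
    ∃ s F x, Coordinates s F x ∧ FinExt (line F x) K ∧
      ∀ (h : line F x ≤ K) N, Ind h V N → T.Space F s x N

/-- a lisse sheaf on an affine space is a lisse sheaf on a variety -/
def ArithData.SpaceLisse : Prop :=
  ∀ {F : IntermediateField P Ω} {s : Set Ω} {x : Ω}, Coordinates s F x → ∀ V, T.Space F s x V →
    T.Lisse ⊥ (line F x) V

/-- subsheaves -/
def ArithData.SpaceSub : Prop :=
  ∀ {F : IntermediateField P Ω} {s : Set Ω} {x : Ω} (V W), Sub V W → T.Space F s x W →
    T.Space F s x V

variable (P Ω Λ)

/-- Formal properties of `ℓ`-adic cohomology and of lisse `Λ`-sheaves over finite fields. -/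
structure ArithTheory extends ArithData P Ω Λ where
  var_sub : toArithData.VarSub
  var_ind : toArithData.VarInd
  var_geom : toArithData.VarGeom
  twist : toArithData.Twist
  weights : toArithData.Weights
  kedlaya : toArithData.Kedlaya
  space_lisse : toArithData.SpaceLisse
  space_sub : toArithData.SpaceSub

variable {P Ω Λ}

/-- The question for varieties `X` over finite fields with `2 ≤ dim X ≤ N`: `K` is the function
field of `X`. -/
def ArithTheory.HigherDim (T : ArithTheory P Ω Λ) (N : ℕ) : Prop :=
  ∀ K : IntermediateField P Ω, FG ⊥ K → 2 ≤ Algebra.trdeg P K → Algebra.trdeg P K ≤ N →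
    ∀ V, T.Good V → T.Var K V

/-- irreducible lisse sheaves on the affine spaces of dimension `n`, `2 ≤ n ≤ N`, over `P` are of
geometric origin on the geometric generic fibre of the projection to the affine space of dimension
`n - 1`: `F(x)` is the function field of the affine space, and `F` that of its image -/
def ArithTheory.AffineSpaces (T : ArithTheory P Ω Λ) (N : ℕ) : Prop :=
  ∀ (s : Set Ω) (F : IntermediateField P Ω) (x : Ω), Coordinates s F x → s.Nonempty →
    s.ncard < N → ∀ V, T.Space F s x V → Irr V → T.Geom F (line F x) V

end Pool.Agent.TH117.RFM
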