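import Pool.Agent.TH117.RFM.Main
import Pool.Agent.TH117.RFM.ADefs

/-! # Geometric origin over finite fields -/

set_option autoImplicit false

namespace Pool.Agent.TH117.RFM

open IntermediateField Module

section Reps

variable {Λ : Type} [Field Λ] {A : Type} [Group A]

theorem Iso.quo {G : Type} [Group G] {M N : FRep Λ G} (h : Iso M N) : Quo M N := by
  obtain ⟨f, hf, hb⟩ := h
  let e := LinearEquiv.ofBijective f hb
  refine ⟨e.symm.toLinearMap, ?_, e.symm.surjective⟩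
  intro g v
  obtain ⟨u, rfl⟩ := e.surjective v
  show e.symm (N.ρ g (e u)) = M.ρ g (e.symm (e u))
  have h1 : N.ρ g (e u) = e (M.ρ g u) := (hf.map g u).symm
  rw [h1, LinearEquiv.symm_apply_apply, LinearEquiv.symm_apply_apply]

theorem SubQuo.res_res {H H' H'' : Subgroup A} (h : H ≤ H') (h' : H' ≤ H'') (h'' : H ≤ H'')
    {V : FRep Λ H''} {K : FRep Λ H'} (hs : SubQuo (RFM.res h' V) K) :
    SubQuo (RFM.res h'' V) (RFM.res h K) := by
  obtain ⟨T, ⟨i, hi, hii⟩, q, hq, hs⟩ := hs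
  exact ⟨RFM.res h T, ⟨i, fun g v => hi _ v, hii⟩, q, fun g v => hq _ v, hs⟩

theorem IsInd.sub_of_map {H H' : Subgroup A} {h : H ≤ H'} {M : FRep Λ H'} {Z : FRep Λ H}
    {N : FRep Λ H'} (hM : Irr M) (f : M.V →ₗ[Λ] Z.V) (hf : Equi (res h M) Z f) (h0 : f ≠ 0)
    (hN : IsInd h Z N) : Sub M N := by
  obtain ⟨e, he, hr, hρ⟩ := hN.out
  let φ : M.V →ₗ[Λ] (H' → Z.V) :=
    { toFun := fun v x => f (M.ρ x v)
      map_add' := by intro v w; funext x; simp
      map_smul' := by intro c v; funext x; simp }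
  have hφ : ∀ v, φ v ∈ LinearMap.range e := by
    intro v
    refine (hr _).2 ?_
    intro a x
    show f (M.ρ (Subgroup.inclusion h a * x) v) = Z.ρ a (f (M.ρ x v))
    rw [ρ_mul]
    exact hf a _
  let ψ := (LinearEquiv.ofInjective e he).symm.toLinearMap ∘ₗ φ.codRestrict _ hφ
  have hψ : ∀ v, e (ψ v) = φ v := by
    intro v
    have : LinearEquiv.ofInjective e he (ψ v) = φ.codRestrict _ hφ v := by
      simp only [ψ, LinearMap.comp_apply, LinearEquiv.coe_coe, LinearEquiv.apply_symm_apply]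
    exact congrArg Subtype.val this
  have hEq : ∀ g v, ψ (M.ρ g v) = N.ρ g (ψ v) := by
    intro g v
    apply he
    funext x
    rw [hρ, hψ, hψ]
    show f (M.ρ x (M.ρ g v)) = f (M.ρ (x * g) v)
    rw [ρ_mul]
  refine ⟨ψ, hEq, ?_⟩
  rw [← LinearMap.ker_eq_bot]
  refine (hM.2 (LinearMap.ker ψ) ?_).resolve_right ?_
  · intro g v hv
    have hv' : ψ v = 0 := hv
    show ψ (M.ρ g v) = 0
    rw [hEq, hv', map_zero]
  · intro htop
    apply h0
    apply LinearMap.ext
    intro v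
    have h1 : ψ v = 0 := by
      have : v ∈ LinearMap.ker ψ := by rw [htop]; trivial
      exact this
    have h2 : φ v 1 = 0 := by rw [← hψ, h1]; simp
    have h3 : φ v 1 = f v := by
      show f (M.ρ 1 v) = f v
      rw [map_one]; rfl
    rw [← h3, h2]; rfl

end Reps

variable {P Ω : Type} [Field P] [Field Ω] [Algebra P Ω] {Λ : Type} [Field Λ]

/-- arithmetic descent -/
theorem ArithTheory.var_of_geom (T : ArithTheory P Ω Λ) {K : IntermediateField P Ω} (hK : FG ⊥ K)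
    (V : Rp Λ K) (hV : T.Good V) (hG : T.Geom ⊥ K V) : T.Var K V := by
  obtain ⟨H, hH, hsub⟩ := hG
  have hs := hsub.sub (T.coh_semi hK H hH)
  obtain ⟨F₁, hF₁, hLA, W, hW, hiso⟩ := T.coh_descent (bot_le : (⊥ : IntermediateField P Ω) ≤ K) H hH
  have hKL : K ≤ K ⊔ F₁ := le_sup_left
  have hfin : FinExt K (K ⊔ F₁) := hF₁.sup bot_le
  have hFGL : FG ⊥ (K ⊔ F₁) := hK.trans hfin.fg
  generalize hLdef : K ⊔ F₁ = L at *
  let VL : Rp Λ L := up hKL V
  obtain ⟨j, hj, hji⟩ : ∃ j : V.V →ₗ[Λ] W.V,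
      (∀ (g : (K ⊔ ac ⊥).fixingSubgroup) v,
        j (VL.ρ (Subgroup.inclusion (fixingSubgroup_le hLA) g) v) =
          W.ρ (Subgroup.inclusion (fixingSubgroup_le hLA) g) (j v)) ∧ Function.Injective j := by
    obtain ⟨a, ha, hai⟩ := hs
    obtain ⟨b, hb, hbi⟩ := hiso
    exact ⟨b ∘ₗ a, fun g v => (congrArg b (ha g v)).trans (hb g (a v)), hbi.1.comp hai⟩
  have hstA : Stable K (K ⊔ ac ⊥) := (stable_self K).sup ((stable_ac ⊥).mono bot_le)
  let N : Submodule Λ (V.V →ₗ[Λ] W.V) :=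
    { carrier := {φ | ∀ (g : (K ⊔ ac ⊥).fixingSubgroup) v,
        φ (VL.ρ (Subgroup.inclusion (fixingSubgroup_le hLA) g) v) =
          W.ρ (Subgroup.inclusion (fixingSubgroup_le hLA) g) (φ v)}
      add_mem' := by
        intro φ ψ hφ hψ g v
        simp only [LinearMap.add_apply, hφ g v, hψ g v, map_add]
      zero_mem' := by intro g v; simp
      smul_mem' := by
        intro c φ hφ g v
        simp only [LinearMap.smul_apply, hφ g v, map_smul] }
  have hN : Inv (lhom VL W) N := by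
    intro σ φ hφ g v
    have hmem : (σ : Gal(Ω/P))⁻¹ * g * σ ∈ (K ⊔ ac ⊥).fixingSubgroup :=
      hstA.conj_mem (fixingSubgroup_le hKL σ.2) g.2
    have e1 : σ⁻¹ * Subgroup.inclusion (fixingSubgroup_le hLA) g =
        Subgroup.inclusion (fixingSubgroup_le hLA) ⟨_, hmem⟩ * σ⁻¹ := by
      apply Subtype.ext
      simp [mul_assoc]
    show W.ρ σ (φ (VL.ρ σ⁻¹ (VL.ρ (Subgroup.inclusion (fixingSubgroup_le hLA) g) v))) =
      W.ρ (Subgroup.inclusion (fixingSubgroup_le hLA) g) (W.ρ σ (φ (VL.ρ σ⁻¹ v)))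
    rw [← ρ_mul VL, e1, ρ_mul VL, hφ ⟨_, hmem⟩, ← ρ_mul, ← ρ_mul]
    congr 2
    apply Subtype.ext
    simp [mul_assoc]
  let NL : Rp Λ L := subrep (lhom VL W) N hN
  have hNL : T.Lisse ⊥ L NL := T.lisse_sub _ _ (subrep_sub _ _ _)
    (T.lisse_hom _ _ (T.lisse_res bot_le hKL hFGL V hV.1) (T.lisse_coh hFGL W hW))
  have hNLtriv : ∀ g : L.fixingSubgroup, (g : Gal(Ω/P)) ∈ (K ⊔ ac ⊥).fixingSubgroup →
      ∀ φ : NL.V, NL.ρ g φ = φ := by
    intro g hg φ
    apply Subtype.ext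
    apply LinearMap.ext
    intro v
    show W.ρ g (φ.1 (VL.ρ g⁻¹ v)) = φ.1 v
    have := φ.2 (⟨g, hg⟩ : (K ⊔ ac ⊥).fixingSubgroup) (VL.ρ g⁻¹ v)
    have e : Subgroup.inclusion (fixingSubgroup_le hLA) ⟨g, hg⟩ = g := rfl
    rw [e, ρ_inv_apply VL] at this
    exact this.symm
  have hjN : j ∈ N := hj
  have hnt := hV.2.1.1
  have hj0 : j ≠ 0 := by
    rintro rfl
    obtain ⟨v, hv⟩ := exists_ne (0 : V.V)
    exact hv (hji (by simp))
  have hNLnt : Nontrivial NL.V := ⟨⟨⟨j, hjN⟩, 0, fun h => hj0 (congrArg Subtype.val h)⟩⟩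
  obtain ⟨U, hU, hirrU⟩ := exists_irr_sub NL hNLnt
  let UL : Rp Λ L := subrep NL U hU
  have hUc : T.Const UL := by
    refine ⟨T.lisse_sub _ _ (subrep_sub NL U hU) hNL, hirrU, ?_⟩
    intro g v
    have hle : K ⊔ ac ⊥ ≤ L ⊔ ac ⊥ := sup_le_sup_right hKL _
    apply Subtype.ext
    exact hNLtriv _ (fixingSubgroup_le hle g.2) v.1
  let f : V.V →ₗ[Λ] (UL.V →ₗ[Λ] W.V) :=
    { toFun := fun v =>
        { toFun := fun n => n.1.1 v
          map_add' := fun _ _ => rfl
          map_smul' := fun _ _ => rfl }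
      map_add' := fun v w => LinearMap.ext fun n => map_add n.1.1 v w
      map_smul' := fun c v => LinearMap.ext fun n => map_smul n.1.1 c v }
  have hf : Equi (up hKL V) (lhom UL W) f := by
    intro g v
    apply LinearMap.ext
    intro n
    show n.1.1 (VL.ρ g v) = W.ρ g ((UL.ρ g⁻¹ n).1.1 v)
    have h4 : (UL.ρ g⁻¹ n).1.1 v = W.ρ g⁻¹ (n.1.1 (VL.ρ g⁻¹⁻¹ v)) := rfl
    rw [h4, ρ_inv_apply W, inv_inv]
  have hf0 : f ≠ 0 := by
    intro h0
    have := hirrU.1
    obtain ⟨n, hn⟩ := exists_ne (0 : U)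
    apply hn
    apply Subtype.ext
    apply Subtype.ext
    apply LinearMap.ext
    intro v
    have h6 : f v = 0 := congrArg (fun φ : V.V →ₗ[Λ] (UL.V →ₗ[Λ] W.V) => φ v) h0
    exact congrArg (fun φ : UL.V →ₗ[Λ] W.V => φ n) h6
  have hvar := T.weights hKL hfin hK V UL W hV hUc hW ⟨f, hf, hf0⟩
  obtain ⟨t, ht, hcov⟩ := hfin.cosets (fixingSubgroup_le hKL)
  obtain ⟨M, hM⟩ := exists_ind (fixingSubgroup_le hKL) (lhom UL W) t ht hcov
  exact T.var_sub V M (hM.sub_of_map hV.2.1 f hf hf0).subQuo (T.var_ind hfin hKL _ M hvar hM)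

theorem Coordinates.ins {s : Set Ω} {F : IntermediateField P Ω} {x : Ω}
    (h : Coordinates s F x) : x ∉ s ∧
      AlgebraicIndependent P (fun a : (insert x s : Set Ω) => (a : Ω)) := by
  obtain ⟨hs, hi, rfl, hx⟩ := h
  constructor
  · intro hxs
    exact hx (isAlgebraic_algebraMap (⟨x, subset_adjoin P _ hxs⟩ : adjoin P s))
  · have h1 : Transcendental (Algebra.adjoin P s) x := transcendental_adjoin_iff.1 hx
    have := AlgebraicIndepOn.insert (R := P) (x := (id : Ω → Ω)) (s := s) (i := x) hi (by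
      rw [Set.image_id]; exact h1)
    exact this

theorem Coordinates.line_eq {s : Set Ω} {F : IntermediateField P Ω} {x : Ω}
    (h : Coordinates s F x) : line F x = adjoin P (insert x s) := by
  obtain ⟨hs, hi, rfl, hx⟩ := h
  exact (adjoin_insert_eq s x).symm

theorem Coordinates.fg {s : Set Ω} {F : IntermediateField P Ω} {x : Ω}
    (h : Coordinates s F x) : FG ⊥ F ∧ FG ⊥ (line F x) := by
  refine ⟨⟨s, h.1, by rw [bot_sup_eq]; exact h.2.2.1⟩, ⟨insert x s, h.1.insert x, ?_⟩⟩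
  rw [bot_sup_eq]
  exact h.line_eq

theorem FG.finExt {K : IntermediateField P Ω} (h : FG ⊥ K) (h' : K ≤ ac ⊥) : FinExt ⊥ K := by
  obtain ⟨s, hs, hK⟩ := h
  refine ⟨s, hs, ?_, hK⟩
  intro a ha
  have h1 : a ∈ K := by
    rw [hK, bot_sup_eq]
    exact subset_adjoin P s ha
  exact mem_ac.1 (h' h1)

theorem mk_ncard {u : Set Ω} (hu : u.Finite) : Cardinal.mk u = u.ncard := by
  have := hu.fintype
  rw [Cardinal.mk_fintype, ← Set.toFinset_card, ← Set.ncard_eq_toFinset_card']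

theorem ArithTheory.case_of_spaces [IsAlgClosed Ω] (T : ArithTheory P Ω Λ) (hP : Finite P)
    (hL : T.Lafforgue) {N : ℕ} (h : T.AffineSpaces N) (n : ℕ) (hn : n ≤ N) :
    ∀ K : IntermediateField P Ω, FG ⊥ K → Algebra.trdeg P K ≤ n → T.Case ⊥ K := by
  induction n with
  | zero =>
    intro K hK htr
    by_cases hK0 : K ≤ ac ⊥
    · exact (Theory.Case.refl T.toTheory ⊥).fin le_rfl (hK.finExt hK0)
    · intro V hV hirr
      exfalso
      obtain ⟨s, F, x, hc, hfin, -⟩ := T.kedlaya hK hK0 V hV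
      have h1 := ncard_le htr (hc.1.insert x)
        ((subset_adjoin P _).trans (hc.line_eq ▸ hfin.le)) hc.ins.2
      rw [Set.ncard_insert_of_notMem hc.ins.1 hc.1] at h1
      omega
  | succ n ih =>
    intro K hK htr
    by_cases hK0 : K ≤ ac ⊥
    · exact (Theory.Case.refl T.toTheory ⊥).fin le_rfl (hK.finExt hK0)
    · intro V hV hirr
      obtain ⟨s, F, x, hc, hfin, hInd⟩ := T.kedlaya hK hK0 V hV
      have h1 := ncard_le htr (hc.1.insert x)
        ((subset_adjoin P _).trans (hc.line_eq ▸ hfin.le)) hc.ins.2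
      rw [Set.ncard_insert_of_notMem hc.ins.1 hc.1] at h1
      obtain ⟨t, ht, hcov⟩ := hfin.cosets (fixingSubgroup_le hfin.le)
      obtain ⟨M, hM⟩ := exists_ind (fixingSubgroup_le hfin.le) V t ht hcov
      have hMs := hInd hfin.le M hM
      obtain ⟨W, hW, hWi⟩ := exists_irr_sub M (hM.nontrivial hirr.1)
      have hWs := T.space_sub _ _ (subrep_sub M W hW) hMs
      have hWl := T.space_lisse hc _ hWs
      have hG : T.Geom F (line F x) (subrep M W hW) := by
        rcases s.eq_empty_or_nonempty with hs | hs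
        · have hF : F = ⊥ := by rw [hc.2.2.1, hs, adjoin_empty]
          refine hL hP F x hF hc.2.2.2 _ ?_ hWi
          have key : ∀ E : IntermediateField P Ω, E = ⊥ →
              T.Lisse E (line F x) (subrep M W hW) := by
            rintro _ rfl
            exact hWl
          exact key F hF
        · exact h s F x hc hs (by omega) _ hWs hWi
      have htF : Algebra.trdeg P F ≤ n := by
        rw [hc.2.2.1]
        refine (trdeg_adjoin_le s).trans ?_
        rw [mk_ncard hc.1]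
        exact_mod_cast (by omega : s.ncard ≤ n)
      exact T.geom_of_ind hfin.le hirr hM hW hWi
        (T.fibration_one bot_le hc.fg.1 hc.2.2.2 rfl (ih (by omega) F hc.fg.1 htF) _ hWl hWi hG)

theorem ArithTheory.higherDim_of_spaces [IsAlgClosed Ω] (T : ArithTheory P Ω Λ) (hP : Finite P)
    (hL : T.Lafforgue) {N : ℕ} (h : T.AffineSpaces N) : T.HigherDim N := by
  intro K hK _ htr V hV
  exact T.var_of_geom hK V hV (T.case_of_spaces hP hL h N le_rfl K hK htr V hV.1 hV.2.1)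

theorem Theory.geom_of_geo (T : Theory P Ω Λ) (F : IntermediateField P Ω)
    {K : IntermediateField P Ω} {V : Rp Λ K} {H : Rp Λ (K ⊔ ac ⊥)} (hsq : SubQuo (geo V) H)
    (hH : T.Coh (K ⊔ ac ⊥) H) : T.Geom F K V := by
  have hle : K ⊔ ac ⊥ ≤ K ⊔ ac F := sup_le_sup_left (ac_mono bot_le) _
  exact ⟨up hle H, T.coh_res hle H hH, SubQuo.res_res (fixingSubgroup_le hle) _ _ hsq⟩

theorem ArithTheory.spaces_of_higherDim (T : ArithTheory P Ω Λ) {N : ℕ} (h : T.HigherDim N) :
    T.AffineSpaces N := by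
  intro s F x hc hne hlt V hS hirr
  have hl := T.space_lisse hc V hS
  have hFG := hc.fg.2
  obtain ⟨V', hV', hiso⟩ := T.twist hFG V hl hirr
  have hx := hc.ins.1
  have h1 : (insert x s).ncard = s.ncard + 1 := Set.ncard_insert_of_notMem hx hc.1
  have hs1 : 0 < s.ncard := (Set.ncard_pos hc.1).2 hne
  have hle : Algebra.trdeg P (line F x) ≤ N := by
    rw [hc.line_eq]
    refine (trdeg_adjoin_le _).trans ?_
    rw [mk_ncard (hc.1.insert x), h1]
    exact_mod_cast (by omega : s.ncard + 1 ≤ N)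
  have hge : 2 ≤ Algebra.trdeg P (line F x) := by
    have hsub : insert x s ⊆ (line F x : Set Ω) := by
      rw [hc.line_eq]
      exact subset_adjoin P _
    have h2 : AlgebraicIndependent P (fun a : (insert x s : Set Ω) => (⟨a, hsub a.2⟩ : line F x)) := by
      rw [← (line F x).val.algebraicIndependent_iff Subtype.val_injective]
      exact hc.ins.2
    refine le_trans ?_ h2.cardinalMk_le_trdeg
    rw [mk_ncard (hc.1.insert x), h1]
    exact_mod_cast (by omega : 2 ≤ s.ncard + 1)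
  obtain ⟨H, hH, hsq⟩ := T.var_geom hFG V' hV'.2.1 (h _ hFG hge hle V' hV')
  exact T.geom_of_geo _ (subQuo_of_quo_sub (Iso.quo hiso) hsq) hH

theorem ArithTheory.higherDim_iff [IsAlgClosed Ω] (T : ArithTheory P Ω Λ) (hP : Finite P)
    (hL : T.Lafforgue) (N : ℕ) : T.HigherDim N ↔ T.AffineSpaces N :=
  ⟨T.spaces_of_higherDim, T.higherDim_of_spaces hP hL⟩

end Pool.Agent.TH117.RFM
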