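import Pool.Agent.TH117.RFM.Fld

/-! # Automorphisms -/

set_option autoImplicit false

namespace Pool.Agent.TH117.RFM

open IntermediateField Polynomial

variable {P Ω : Type} [Field P] [Field Ω] [Algebra P Ω]

theorem range_eq (F : IntermediateField P Ω) (a : Ω) : a ∈ (algebraMap F Ω).range ↔ a ∈ F :=
  ⟨fun ⟨b, hb⟩ => hb ▸ b.2, fun h => ⟨⟨a, h⟩, rfl⟩⟩

theorem isAlgebraic_iff {F : IntermediateField P Ω} {a : Ω} :
    IsAlgebraic F a ↔ ∃ p : Polynomial Ω, p ≠ 0 ∧ (∀ n, p.coeff n ∈ F) ∧ p.eval a = 0 := by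
  rw [isAlgebraic_iff_poly F Subtype.val_injective]
  simp only [range_eq]

theorem map_eq_self {F : IntermediateField P Ω} {σ : Gal(Ω/P)} (hσ : σ ∈ F.fixingSubgroup)
    {p : Polynomial Ω} (hp : ∀ n, p.coeff n ∈ F) : p.map (σ : Ω →+* Ω) = p := by
  ext n
  rw [coeff_map]
  exact (mem_fixingSubgroup_iff _ _).1 hσ _ (hp n)

theorem eval_eq {F : IntermediateField P Ω} {σ : Gal(Ω/P)} (hσ : σ ∈ F.fixingSubgroup)
    {p : Polynomial Ω} (hp : ∀ n, p.coeff n ∈ F) (a : Ω) : p.eval (σ a) = σ (p.eval a) := by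
  have h := Polynomial.hom_eval₂ p (RingHom.id Ω) (σ : Ω →+* Ω) a
  rw [RingHom.comp_id] at h
  have h1 : p.eval (σ a) = (p.map (σ : Ω →+* Ω)).eval (σ a) := by rw [map_eq_self hσ hp]
  rw [h1, eval_map]
  exact h.symm

theorem ac_map {F : IntermediateField P Ω} {σ : Gal(Ω/P)} (hσ : σ ∈ F.fixingSubgroup) {a : Ω}
    (ha : a ∈ ac F) : σ a ∈ ac F := by
  rw [mem_ac, isAlgebraic_iff] at ha ⊢
  obtain ⟨p, hp, hc, he⟩ := ha
  exact ⟨p, hp, hc, by rw [eval_eq hσ hc, he, map_zero]⟩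

/-- `L` is mapped into itself by the automorphisms over `F` -/
def Stable (F L : IntermediateField P Ω) : Prop :=
  ∀ σ ∈ F.fixingSubgroup, ∀ a ∈ L, σ a ∈ L

theorem stable_ac (F : IntermediateField P Ω) : Stable F (ac F) := fun _ hσ _ ha => ac_map hσ ha

theorem Stable.mono {F K L : IntermediateField P Ω} (h : Stable F L) (hK : F ≤ K) : Stable K L :=
  fun σ hσ a ha => h σ (fixingSubgroup_le hK hσ) a ha

theorem stable_self (F : IntermediateField P Ω) : Stable F F := fun σ hσ a ha => by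
  rw [(mem_fixingSubgroup_iff _ _).1 hσ a ha]; exact ha

theorem Stable.sup {F K L : IntermediateField P Ω} (h : Stable F L) (h' : Stable F K) :
    Stable F (L ⊔ K) := by
  intro σ hσ a ha
  have h1 : L ⊔ K ≤ (L ⊔ K).comap (σ : Ω →ₐ[P] Ω) := by
    refine sup_le ?_ ?_
    · intro b hb
      exact (le_sup_left : L ≤ L ⊔ K) (h σ hσ b hb)
    · intro b hb
      exact (le_sup_right : K ≤ L ⊔ K) (h' σ hσ b hb)
  exact h1 ha

theorem Stable.mem_iff {F L : IntermediateField P Ω} (h : Stable F L) {σ : Gal(Ω/P)}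
    (hσ : σ ∈ F.fixingSubgroup) (a : Ω) : σ a ∈ L ↔ a ∈ L := by
  constructor
  · intro ha
    have := h σ⁻¹ (F.fixingSubgroup.inv_mem hσ) _ ha
    have h2 : σ⁻¹ (σ a) = a := by
      have : σ⁻¹ (σ a) = (σ⁻¹ * σ) a := rfl
      rw [this, inv_mul_cancel]; rfl
    rwa [h2] at this
  · exact h σ hσ a

theorem Stable.conj_mem {F L : IntermediateField P Ω} (h : Stable F L) {σ : Gal(Ω/P)}
    (hσ : σ ∈ F.fixingSubgroup) {g : Gal(Ω/P)} (hg : g ∈ L.fixingSubgroup) :
    σ⁻¹ * g * σ ∈ L.fixingSubgroup := by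
  rw [IntermediateField.mem_fixingSubgroup_iff] at hg ⊢
  intro a ha
  show σ⁻¹ (g (σ a)) = a
  rw [hg _ (h σ hσ a ha)]
  have : σ⁻¹ (σ a) = (σ⁻¹ * σ) a := rfl
  rw [this, inv_mul_cancel]; rfl

/-- the finite extensions of `F` which are stable are cofinal -/
theorem FinExt.exists_stable {F L : IntermediateField P Ω} (h : FinExt F L) :
    ∃ L', FinExt F L' ∧ L ≤ L' ∧ Stable F L' := by
  classical
  obtain ⟨s, hf, hs, rfl⟩ := h
  have hs' : ∀ a : s, ∃ p : Polynomial Ω, p ≠ 0 ∧ (∀ n, p.coeff n ∈ F) ∧ p.eval (a : Ω) = 0 :=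
    fun a => isAlgebraic_iff.1 (hs a a.2)
  choose p hp hc he using hs'
  have := hf.to_subtype
  refine ⟨F ⊔ adjoin P (⋃ a : s, {b | (p a).eval b = 0}),
    ⟨⋃ a : s, {b | (p a).eval b = 0}, Set.finite_iUnion fun a => ?_, ?_, rfl⟩, ?_, ?_⟩
  · refine Set.Finite.subset (p a).roots.toFinset.finite_toSet ?_
    intro b hb
    simp only [Finset.mem_coe, Multiset.mem_toFinset]
    exact (mem_roots (hp a)).2 hb
  · intro b hb
    obtain ⟨a, ha⟩ := Set.mem_iUnion.1 hb
    exact isAlgebraic_iff.2 ⟨p a, hp a, hc a, ha⟩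
  · refine sup_le_sup_left (adjoin.mono P _ _ ?_) _
    intro a ha
    exact Set.mem_iUnion.2 ⟨⟨a, ha⟩, he ⟨a, ha⟩⟩
  · apply Stable.sup (stable_self F)
    intro σ hσ a ha
    have h1 : adjoin P (⋃ a : s, {b | (p a).eval b = 0}) ≤
        (adjoin P (⋃ a : s, {b | (p a).eval b = 0})).comap (σ : Ω →ₐ[P] Ω) := by
      rw [adjoin_le_iff]
      intro b hb
      obtain ⟨a, ha⟩ := Set.mem_iUnion.1 hb
      refine subset_adjoin P _ (Set.mem_iUnion.2 ⟨a, ?_⟩)
      show (p a).eval (σ b) = 0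
      rw [eval_eq hσ (hc a), (ha : (p a).eval b = 0), map_zero]
    exact h1 ha

/-- finitely many cosets -/
theorem FinExt.cosets {F L : IntermediateField P Ω} (h : FinExt F L)
    (hle : L.fixingSubgroup ≤ F.fixingSubgroup) :
    ∃ t : Set F.fixingSubgroup, t.Finite ∧ ∀ x : F.fixingSubgroup, ∃ y ∈ t,
      ∃ a : L.fixingSubgroup, x = Subgroup.inclusion hle a * y := by
  classical
  obtain ⟨s, hf, hs, rfl⟩ := h
  have hs' : ∀ a : s, ∃ p : Polynomial Ω, p ≠ 0 ∧ (∀ n, p.coeff n ∈ F) ∧ p.eval (a : Ω) = 0 :=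
    fun a => isAlgebraic_iff.1 (hs a a.2)
  choose p hp hc he using hs'
  have := hf.to_subtype
  let φ : F.fixingSubgroup → (s → Ω) := fun x a => (x⁻¹ : F.fixingSubgroup).1 a
  have hfin : (Set.range φ).Finite := by
    refine Set.Finite.subset (Set.Finite.pi' (t := fun a : s => {b | (p a).eval b = 0})
      fun a => ?_) ?_
    · refine Set.Finite.subset (p a).roots.toFinset.finite_toSet ?_
      intro b hb
      simp only [Finset.mem_coe, Multiset.mem_toFinset]
      exact (mem_roots (hp a)).2 hb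
    · rintro _ ⟨x, rfl⟩ a
      show (p a).eval ((x⁻¹ : F.fixingSubgroup).1 a) = 0
      rw [eval_eq (x⁻¹ : F.fixingSubgroup).2 (hc a), he, map_zero]
  have := hfin.to_subtype
  refine ⟨Set.range (fun y : Set.range φ => y.2.choose), Set.finite_range _, ?_⟩
  intro x
  let y := (⟨φ x, x, rfl⟩ : Set.range φ).2.choose
  have hy : φ y = φ x := (⟨φ x, x, rfl⟩ : Set.range φ).2.choose_spec
  refine ⟨y, ⟨⟨φ x, x, rfl⟩, rfl⟩, ⟨(x * y⁻¹ : F.fixingSubgroup), ?_⟩, ?_⟩
  · rw [fixingSubgroup_sup]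
    refine ⟨(x * y⁻¹ : F.fixingSubgroup).2, ?_⟩
    show _ ∈ (adjoin P s).fixingSubgroup
    rw [IntermediateField.mem_fixingSubgroup_iff]
    have h1 : adjoin P s ≤ fixedField (Subgroup.zpowers ((x * y⁻¹ : F.fixingSubgroup) : Gal(Ω/P))) := by
      rw [adjoin_le_iff]
      intro a ha
      rintro ⟨_, n, rfl⟩
      have h2 : ((x * y⁻¹ : F.fixingSubgroup) : Gal(Ω/P)) a = a := by
        have h3 : (y⁻¹ : F.fixingSubgroup).1 a = (x⁻¹ : F.fixingSubgroup).1 a :=
          congrFun hy ⟨a, ha⟩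
        show x.1 ((y⁻¹ : F.fixingSubgroup).1 a) = a
        rw [h3]
        show (x.1 * (x.1)⁻¹) a = a
        rw [mul_inv_cancel]; rfl
      have h4 : ((x * y⁻¹ : F.fixingSubgroup) : Gal(Ω/P)) ∈ MulAction.stabilizer Gal(Ω/P) a := h2
      exact (MulAction.stabilizer Gal(Ω/P) a).zpow_mem h4 n
    intro a ha
    exact h1 ha ⟨_, Subgroup.mem_zpowers _⟩
  · apply Subtype.ext
    show (x : Gal(Ω/P)) = (x * y⁻¹ : F.fixingSubgroup).1 * y.1
    simp

variable [IsAlgClosed Ω]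


/-- an automorphism over `F` can be changed so that it fixes `x`, without changing it on the
algebraic closure of `F`, if `x` is transcendental over `F` -/
theorem exists_fix {F : IntermediateField P Ω} {x : Ω} (hx : Transcendental F x)
    (τ : Gal(Ω/P)) (hτ : τ ∈ F.fixingSubgroup) :
    ∃ σ : Gal(Ω/P), σ x = x ∧ ∀ a ∈ ac F, σ a = τ a := by
  classical
  let E := ac F
  have hxE : Transcendental E x := fun h => hx (ac_trans h)
  -- the restriction of `τ` to `E`
  let τE : E ≃+* E :=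
    { toFun := fun a => ⟨τ a, ac_map hτ a.2⟩
      invFun := fun a => ⟨τ⁻¹ a, ac_map (F.fixingSubgroup.inv_mem hτ) a.2⟩
      left_inv := fun a => Subtype.ext (by
        show (τ⁻¹ * τ) (a : Ω) = a
        rw [inv_mul_cancel]; rfl)
      right_inv := fun a => Subtype.ext (by
        show (τ * τ⁻¹) (a : Ω) = a
        rw [mul_inv_cancel]; rfl)
      map_mul' := fun a b => Subtype.ext (by simp)
      map_add' := fun a b => Subtype.ext (by simp) }
  have h1 : AlgebraicIndepOn E id ({x} : Set Ω) := by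
    have : AlgebraicIndependent E ((↑) : ({x} : Set Ω) → Ω) :=
      algebraicIndependent_unique_type_iff.2 hxE
    exact this
  obtain ⟨t, ht, hb⟩ := exists_isTranscendenceBasis_superset h1
  have := IsAlgClosed.isAlgClosure_of_transcendence_basis _ hb
  let e : Algebra.adjoin E (Set.range ((↑) : t → Ω)) ≃+* Algebra.adjoin E (Set.range ((↑) : t → Ω)) :=
    (hb.1.aevalEquiv.symm.toRingEquiv.trans (MvPolynomial.mapEquiv t τE)).trans
      hb.1.aevalEquiv.toRingEquiv
  let σ : Ω ≃+* Ω := IsAlgClosure.equivOfEquiv Ω Ω e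
  have hσ : ∀ p : MvPolynomial t E, σ (MvPolynomial.aeval ((↑) : t → Ω) p) =
      MvPolynomial.aeval ((↑) : t → Ω) (MvPolynomial.map (τE : E →+* E) p) := by
    intro p
    have := IsAlgClosure.equivOfEquiv_algebraMap Ω Ω e (hb.1.aevalEquiv p)
    simpa [σ, e] using this
  have hE : ∀ a : E, σ a = τ a := by
    intro a
    have := hσ (MvPolynomial.C a)
    rw [MvPolynomial.aeval_C, MvPolynomial.map_C, MvPolynomial.aeval_C] at this
    exact this
  have hx' : σ x = x := by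
    have := hσ (MvPolynomial.X ⟨x, ht rfl⟩)
    rwa [MvPolynomial.aeval_X, MvPolynomial.map_X, MvPolynomial.aeval_X] at this
  refine ⟨AlgEquiv.ofRingEquiv (f := σ) ?_, hx', fun a ha => hE ⟨a, ha⟩⟩
  intro r
  have := hE (algebraMap P E r)
  rw [show ((algebraMap P E r : E) : Ω) = algebraMap P Ω r from rfl] at this
  rw [this]
  exact τ.commutes r


end Pool.Agent.TH117.RFM
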