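import Pool.Agent.TH117.RFM.Arith

/-! # One common constituent suffices -/

set_option autoImplicit false

namespace Pool.Agent.TH117.RFM

open IntermediateField Module

section
variable {A : Type} [Group A] {Λ : Type} [Field Λ]

theorem exists_map_res {H₁ H₂ H₃ : Subgroup A} (h12 : H₁ ≤ H₂) (h23 : H₂ ≤ H₃) (h13 : H₁ ≤ H₃)
    (V : FRep Λ H₃) (N : FRep Λ H₂) (h : Maps (res h23 V) N) :
    ∃ f : V.V →ₗ[Λ] (res h12 N).V, Equi (res h13 V) (res h12 N) f ∧ f ≠ 0 := by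
  obtain ⟨f, hf, hf0⟩ := h
  exact ⟨f, fun g v => hf (Subgroup.inclusion h12 g) v, hf0⟩

theorem Sub.maps {G : Type} [Group G] {M N : FRep Λ G} (h : Sub M N) (hM : Nontrivial M.V) :
    Maps M N := by
  obtain ⟨f, hf, hfi⟩ := h
  refine ⟨f, hf, ?_⟩
  rintro rfl
  obtain ⟨v, hv⟩ := exists_ne (0 : M.V)
  exact hv (hfi rfl)

end

variable {P Ω : Type} [Field P] [Field Ω] [Algebra P Ω] {Λ : Type} [Field Λ]

theorem FinExt.refl (K : IntermediateField P Ω) : FinExt K K :=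
  ⟨∅, Set.finite_empty, by simp, by rw [adjoin_empty, sup_bot_eq]⟩

theorem Theory.geom_of_map (T : Theory P Ω Λ) {K L : IntermediateField P Ω}
    (hKL : FinExt K L) (V : Rp Λ K) (hirr : Irr V) (h : K ≤ L ⊔ ac ⊥) (H : Rp Λ (L ⊔ ac ⊥))
    (hH : T.Coh (L ⊔ ac ⊥) H) (hm : Maps (up h V) H) : T.Geom ⊥ K V := by
  obtain ⟨L', hL', hLL', hst⟩ := hKL.exists_stable
  have hle : L ⊔ ac ⊥ ≤ L' ⊔ ac ⊥ := sup_le_sup_right hLL' _
  have hKB : K ≤ L' ⊔ ac ⊥ := hL'.le.trans le_sup_left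
  have hP : ac ⊥ ≤ L' ⊔ ac ⊥ := le_sup_right
  obtain ⟨f, hf, hf0⟩ := exists_map_res (fixingSubgroup_le hle) (fixingSubgroup_le h)
    (fixingSubgroup_le hKB) V H hm
  have hH' : T.Coh (L' ⊔ ac ⊥) (up hle H) := T.coh_res hle H hH
  have hstB : Stable K (L' ⊔ ac ⊥) := hst.sup ((stable_ac ⊥).mono bot_le)
  obtain ⟨Z, hZ, hVZ⟩ := exists_sub_of_ne_zero (fixingSubgroup_le hKB) (T.Coh (L' ⊔ ac ⊥))
    (fun σ hσ g hg => hstB.conj_mem hσ hg)
    (fun σ hσ M hM => T.coh_conj _ σ _ (fun a => hstB.mem_iff hσ a) M hM)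
    (fun M N hM hN => T.coh_sum hP M N hM hN) V hirr (up hle H) hH' f hf hf0
  have hfin : FinExt (K ⊔ ac ⊥) (L' ⊔ ac ⊥) := by
    have := hL'.sup (K := K ⊔ ac ⊥) le_sup_left
    rwa [sup_right_comm, sup_eq_right.2 hL'.le] at this
  have hle' : K ⊔ ac ⊥ ≤ L' ⊔ ac ⊥ := sup_le_sup_right hL'.le _
  obtain ⟨t, ht, hcov⟩ := hfin.cosets (fixingSubgroup_le hle')
  obtain ⟨M, hM⟩ := exists_ind (fixingSubgroup_le hle') Z t ht hcov
  have hVM : Sub (res (fixingSubgroup_le (le_sup_left : K ≤ K ⊔ ac ⊥)) V) M := hM.sub hVZ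
  exact ⟨M, T.coh_ind hfin hle' Z M hZ hM, hVM.subQuo⟩

theorem ArithTheory.exists_map (T : ArithTheory P Ω Λ) {K : IntermediateField P Ω} (hK : FG ⊥ K)
    (V : Rp Λ K) (hirr : Irr V) (hvar : T.Var K V) :
    ∃ H, T.Coh (K ⊔ ac ⊥) H ∧ Maps (geo V) H := by
  obtain ⟨H, hH, hsq⟩ := T.var_geom hK V hirr hvar
  have hs : Sub (geo V) H := SubQuo.sub (T.coh_semi hK H hH) hsq
  exact ⟨H, hH, hs.maps hirr.1⟩

/-- `V` has a common constituent, over the geometric fundamental group of a finite cover, with the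
cohomology of a smooth projective scheme -/
def ArithData.Meets (T : ArithData P Ω Λ) {K : IntermediateField P Ω} (V : Rp Λ K) : Prop :=
  ∃ L, FinExt K L ∧ ∃ (h : K ≤ L ⊔ ac ⊥) (H : Rp Λ (L ⊔ ac ⊥)),
    T.Coh (L ⊔ ac ⊥) H ∧ Maps (up h V) H

theorem ArithTheory.var_iff (T : ArithTheory P Ω Λ) {K : IntermediateField P Ω} (hK : FG ⊥ K)
    (V : Rp Λ K) (hV : T.Good V) : T.Var K V ↔ T.Meets V := by
  constructor
  · intro hvar
    obtain ⟨H, hH, hm⟩ := T.exists_map hK V hV.2.1 hvar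
    exact ⟨K, FinExt.refl K, le_sup_left, H, hH, hm⟩
  · rintro ⟨L, hL, h, H, hH, hm⟩
    exact T.var_of_geom hK V hV (T.geom_of_map hL V hV.2.1 h H hH hm)

end Pool.Agent.TH117.RFM
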