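import Mathlib

/-!
# Relative Fontaine–Mazur: definitions

Finitely generated fields are subfields of one algebraically closed field `Ω`; the absolute Galois
group of `K` acts through the group of automorphisms of `Ω` over `K`.
-/

set_option autoImplicit false

namespace Pool.Agent.TH117.RFM

open IntermediateField

/-- a finite dimensional representation of `G` over `Λ` -/
structure FRep (Λ : Type) [Field Λ] (G : Type) [Group G] where
  /-- the space -/
  V : Type
  [grp : AddCommGroup V]
  [mod : Module Λ V]
  [fin : FiniteDimensional Λ V]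
  /-- the action -/
  ρ : Representation Λ G V

attribute [instance] FRep.grp FRep.mod FRep.fin

section Reps

variable {Λ : Type} [Field Λ] {G : Type} [Group G]

/-- the action of `g` on `v` -/
abbrev FRep.act (M : FRep Λ G) (g : G) (v : M.V) : M.V := M.ρ g v

/-- linear maps -/
abbrev Lin (M N : FRep Λ G) : Type := M.V →ₗ[Λ] N.V

/-- `f` is equivariant -/
def Equi (M N : FRep Λ G) (f : Lin M N) : Prop := ∀ g v, f (M.act g v) = N.act g (f v)

/-- `M` is isomorphic to a subrepresentation of `N` -/
def Sub (M N : FRep Λ G) : Prop := ∃ f, Equi M N f ∧ Function.Injective f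

/-- `M` is a quotient of `N` -/
def Quo (M N : FRep Λ G) : Prop := ∃ f, Equi N M f ∧ Function.Surjective f

/-- `M` is a subquotient of `N` -/
def SubQuo (M N : FRep Λ G) : Prop := ∃ T : FRep Λ G, Sub T N ∧ Quo M T

/-- `M` and `N` are isomorphic -/
def Iso (M N : FRep Λ G) : Prop := ∃ f, Equi M N f ∧ Function.Bijective f

/-- the subspace `W` is invariant -/
def Inv (M : FRep Λ G) (W : Submodule Λ M.V) : Prop := ∀ g, ∀ v ∈ W, M.act g v ∈ W

/-- `M` is irreducible -/
def Irr (M : FRep Λ G) : Prop := Nontrivial M.V ∧ ∀ W, Inv M W → W = ⊥ ∨ W = ⊤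

/-- `M` is semisimple -/
def Semi (M : FRep Λ G) : Prop := ∀ W, Inv M W → ∃ W', Inv M W' ∧ IsCompl W W'

/-- the action on `M` is trivial -/
def Triv (M : FRep Λ G) : Prop := ∀ g v, M.act g v = v

/-- the linear maps from `M` to `N`, with `g` acting by `φ ↦ g φ g⁻¹` -/
abbrev lhom (M N : FRep Λ G) : FRep Λ G := ⟨M.V →ₗ[Λ] N.V, Representation.linHom M.ρ N.ρ⟩

/-- the direct sum of `M` and `N` -/
noncomputable abbrev dsum (M N : FRep Λ G) : FRep Λ G := ⟨M.V × N.V, M.ρ.prod N.ρ⟩

/-- the representation of `H` through the homomorphism `u` from `H` to `G` -/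
abbrev FRep.comap {H : Type} [Group H] (u : H →* G) (M : FRep Λ G) : FRep Λ H :=
  ⟨M.V, M.ρ.comp u⟩

variable {A : Type} [Group A]

/-- restriction to a smaller subgroup -/
abbrev res {H H' : Subgroup A} (h : H ≤ H') (M : FRep Λ H') : FRep Λ H :=
  M.comap (Subgroup.inclusion h)

/-- the endomorphism `g ↦ σ⁻¹ g σ` of `H` -/
abbrev conjHom {H : Subgroup A} (σ : A) (hσ : ∀ g ∈ H, σ⁻¹ * g * σ ∈ H) : H →* H :=
  MonoidHom.mk' (fun g : H => (⟨σ⁻¹ * g * σ, hσ g g.2⟩ : H))
    (fun a b => Subtype.ext (by simp [mul_assoc]))

/-- conjugation by `σ`: the element `g` acts as `σ⁻¹ g σ` did -/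
abbrev conj {H : Subgroup A} (σ : A) (hσ : ∀ g ∈ H, σ⁻¹ * g * σ ∈ H) (M : FRep Λ H) : FRep Λ H :=
  M.comap (conjHom σ hσ)

/-- the functions `f` on `H'` with `f (a x) = a f(x)` for `a` in `H` -/
def InInd {H H' : Subgroup A} (h : H ≤ H') (M : FRep Λ H) (f : H' → M.V) : Prop :=
  ∀ (a : H) (x : H'), f (Subgroup.inclusion h a * x) = M.act a (f x)

/-- a family of linear maps from `N` to `M`, indexed by `H'`; it gives for each `v` in `N` the
function `x ↦ e x v` on `H'` -/
abbrev Family {H H' : Subgroup A} (M : FRep Λ H) (N : FRep Λ H') : Type := H' → N.V →ₗ[Λ] M.V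

/-- the map from `N` to the functions on `H'` is injective -/
def FInj {H H' : Subgroup A} {M : FRep Λ H} {N : FRep Λ H'} (e : Family M N) : Prop :=
  ∀ v, (∀ x, e x v = 0) → v = 0

/-- its image is the set of functions `f` with `f (a x) = a f(x)` for `a` in `H` -/
def FImage {H H' : Subgroup A} {M : FRep Λ H} {N : FRep Λ H'} (h : H ≤ H')
    (e : Family M N) : Prop := ∀ f, (∃ v, ∀ x, e x v = f x) ↔ InInd h M f

/-- it is equivariant, where `g` maps `f` to `x ↦ f (x g)` -/
def FEqui {H H' : Subgroup A} {M : FRep Λ H} {N : FRep Λ H'} (e : Family M N) : Prop :=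
  ∀ g v x, e x (N.act g v) = e (x * g) v

/-- `N` is the representation of `H'` induced by the representation `M` of the subgroup `H`: it is
isomorphic to the space of functions `f` on `H'` with `f (a x) = a f(x)` for `a` in `H`, with
`g` acting by `f ↦ f (· g)` -/
def IsInd {H H' : Subgroup A} (h : H ≤ H') (M : FRep Λ H) (N : FRep Λ H') : Prop :=
  ∃ e : Family M N, FInj e ∧ FImage h e ∧ FEqui e

end Reps

section Fields

variable {P Ω : Type} [Field P] [Field Ω] [Algebra P Ω]

/-- the group of automorphisms of `Ω` over `K`; its action on the algebraic closure of `K` gives the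
absolute Galois group of `K` -/
abbrev Gm (K : IntermediateField P Ω) : Subgroup Gal(Ω/P) := K.fixingSubgroup

/-- representations over `Λ` -/
abbrev Rp (Λ : Type) [Field Λ] (K : IntermediateField P Ω) : Type 1 := FRep Λ (Gm K)

/-- restriction to a larger field -/
abbrev up {Λ : Type} [Field Λ] {K L : IntermediateField P Ω} (h : K ≤ L) (V : Rp Λ K) : Rp Λ L :=
  res (fixingSubgroup_le h) V

/-- `N` is the representation for `K` induced by the representation `M` for the larger field `L` -/
abbrev Ind {Λ : Type} [Field Λ] {K L : IntermediateField P Ω} (h : K ≤ L) (M : Rp Λ L)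
    (N : Rp Λ K) : Prop := IsInd (fixingSubgroup_le h) M N

/-- the algebraic closure of `F` in `Ω` -/
def ac (F : IntermediateField P Ω) : IntermediateField P Ω :=
  (algebraicClosure F Ω).restrictScalars P

/-- the field `F(x)` -/
abbrev line (F : IntermediateField P Ω) (x : Ω) : IntermediateField P Ω := F ⊔ adjoin P {x}

/-- `L` is generated over `F` by finitely many algebraic elements -/
def FinExt (F L : IntermediateField P Ω) : Prop :=
  ∃ s : Set Ω, s.Finite ∧ (∀ a ∈ s, IsAlgebraic F a) ∧ L = F ⊔ adjoin P s

/-- `L` is generated over `F` by finitely many separable elements -/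
def FinSepExt (F L : IntermediateField P Ω) : Prop :=
  ∃ s : Set Ω, s.Finite ∧ (∀ a ∈ s, IsSeparable F a) ∧ L = F ⊔ adjoin P s

/-- `L` is a finitely generated field over `F` -/
def FG (F L : IntermediateField P Ω) : Prop :=
  ∃ s : Set Ω, s.Finite ∧ L = F ⊔ adjoin P s

/-- every automorphism over `k` agrees on the algebraic closure of `k` with one over `K`: the
variety over `k` with function field `K` is geometrically connected -/
def GeomConn (k K : IntermediateField P Ω) : Prop :=
  ∀ τ ∈ Gm k, ∃ σ ∈ Gm K, ∀ a ∈ ac k, σ a = τ a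

/-- `K` is finite separable over a rational function field in finitely many variables over `k`:
it is the function field of a smooth variety over `k` -/
def IsFunctionField (k K : IntermediateField P Ω) : Prop :=
  ∃ t : Set Ω, t.Finite ∧ AlgebraicIndependent k ((↑) : t → Ω) ∧ FinSepExt (k ⊔ adjoin P t) K

/-- polynomials over `F` -/
abbrev Pol (F : IntermediateField P Ω) : Type := Polynomial F

/-- the value `f(x)` -/
noncomputable abbrev Pol.val {F : IntermediateField P Ω} (f : Pol F) (x : Ω) : Ω :=
  Polynomial.aeval x f

/-- the polynomial `X (X - 1)` -/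
noncomputable abbrev twoPoints (R : Type) [CommRing R] : Polynomial R :=
  Polynomial.X * (Polynomial.X - 1)

/-- the polynomial `1` -/
noncomputable abbrev noPoints (R : Type) [CommRing R] : Polynomial R := 1

variable (P Ω) (Λ : Type) [Field Λ]

/-- The data of `ℓ`-adic cohomology and of lisse `Λ`-sheaves. -/
structure TheoryData where
  /-- the representations of the Galois group of `K` which are isomorphic to `H^i(Y, Λ)` for
  a smooth projective scheme `Y` over `K` -/
  Coh : ∀ K : IntermediateField P Ω, Rp Λ K → Prop
  /-- the representations of the Galois group of `K` given by lisse `Λ`-sheaves on integral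
  `k`-schemes of finite type with function field `K` -/
  Lisse : IntermediateField P Ω → ∀ K : IntermediateField P Ω, Rp Λ K → Prop
  /-- the representations of the Galois group of `F(x)` given by lisse `Λ`-sheaves on the open
  subset `f ≠ 0` of the affine line over `F` with coordinate `x` -/
  On : ∀ (F : IntermediateField P Ω) (x : Ω), Pol F → Rp Λ (line F x) → Prop

variable {P Ω Λ} (T : TheoryData P Ω Λ)

/-- change of base field -/
def TheoryData.CohRes : Prop :=
  ∀ {K L : IntermediateField P Ω} (h : K ≤ L) (H : Rp Λ K), T.Coh K H → T.Coh L (up h H)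

/-- a scheme over the union `K ac(F)` of the fields `K F'` is defined over one of them -/
def TheoryData.CohDescent : Prop :=
  ∀ {F K : IntermediateField P Ω}, F ≤ K → ∀ H, T.Coh (K ⊔ ac F) H →
    ∃ F', FinExt F F' ∧ ∃ h : K ⊔ F' ≤ K ⊔ ac F, ∃ W, T.Coh (K ⊔ F') W ∧ Iso H (up h W)

/-- a scheme over the finite extension `L` is a scheme over `K` -/
def TheoryData.CohInd : Prop :=
  ∀ {K L : IntermediateField P Ω}, FinExt K L → ∀ (h : K ≤ L) H N, T.Coh L H → Ind h H N →
    T.Coh K N

/-- Künneth formula and Poincaré duality (`K` contains the roots of unity) -/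
def TheoryData.CohHom : Prop :=
  ∀ {K : IntermediateField P Ω}, ac ⊥ ≤ K → ∀ H H', T.Coh K H → T.Coh K H' →
    ∃ H'', T.Coh K H'' ∧ Sub (lhom H H') H''

/-- disjoint unions, and products with constant schemes -/
def TheoryData.CohSum : Prop :=
  ∀ {K : IntermediateField P Ω}, ac ⊥ ≤ K → ∀ H H', T.Coh K H → T.Coh K H' →
    ∃ H'', T.Coh K H'' ∧ Sub (dsum H H') H''

/-- finite sets of rational points -/
def TheoryData.CohTriv : Prop := ∀ (K : IntermediateField P Ω) H, Triv H → T.Coh K H

/-- transport of structure by an automorphism which maps `K` onto `K` -/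
def TheoryData.CohConj : Prop :=
  ∀ (K : IntermediateField P Ω) (σ : Gal(Ω/P)) (hσ), (∀ a, σ a ∈ K ↔ a ∈ K) →
    ∀ H, T.Coh K H → T.Coh K (conj σ hσ H)

/-- geometric monodromy is semisimple (Deligne) -/
def TheoryData.CohSemi : Prop :=
  ∀ {F K : IntermediateField P Ω}, FG F K → ∀ H, T.Coh (K ⊔ ac F) H → Semi H

/-- the action factors through the Galois group of `K` -/
def TheoryData.LisseTriv : Prop :=
  ∀ {k K : IntermediateField P Ω} (V), T.Lisse k K V → ∀ h : K ≤ ac K, Triv (up h V)

/-- subsheaves -/
def TheoryData.LisseSub : Prop :=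
  ∀ {k K : IntermediateField P Ω} (V W), Sub V W → T.Lisse k K W → T.Lisse k K V

/-- internal Hom -/
def TheoryData.LisseHom : Prop :=
  ∀ {k K : IntermediateField P Ω} (V W), T.Lisse k K V → T.Lisse k K W → T.Lisse k K (lhom V W)

/-- the cohomology of a smooth projective scheme over `K` is lisse on an open subset -/
def TheoryData.LisseCoh : Prop :=
  ∀ {k K : IntermediateField P Ω}, FG k K → ∀ H, T.Coh K H → T.Lisse k K H

/-- inverse images -/
def TheoryData.LisseRes : Prop :=
  ∀ {k K L : IntermediateField P Ω}, k ≤ K → ∀ h : K ≤ L, FG k L → ∀ V,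
    T.Lisse k K V → T.Lisse k L (up h V)

/-- direct images under finite étale morphisms and universal homeomorphisms -/
def TheoryData.LisseInd : Prop :=
  ∀ {k K L : IntermediateField P Ω}, k ≤ K → FinExt K L → ∀ (h : K ≤ L) V N,
    T.Lisse k L V → Ind h V N → T.Lisse k K N

/-- a representation of the Galois group of `F` which is lisse on a variety dominating one with
function field `F`, with geometrically connected fibres, is lisse on an open subset -/
def TheoryData.LisseDescent : Prop :=
  ∀ {k F L : IntermediateField P Ω}, k ≤ F → ∀ h : F ≤ L, FG k L → GeomConn F L → ∀ N,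
    (∀ h' : F ≤ ac F, Triv (up h' N)) → T.Lisse k L (up h N) → T.Lisse k F N

/-- restriction to the generic fibre -/
def TheoryData.LisseGeneric : Prop :=
  ∀ {k F K : IntermediateField P Ω}, k ≤ F → FG k F → F ≤ K → ∀ V, T.Lisse k K V → T.Lisse F K V

/-- schemes over `k` are schemes over `k₀` -/
def TheoryData.LisseFin : Prop :=
  ∀ {k₀ k K : IntermediateField P Ω}, FinExt k₀ k → k ≤ K → ∀ V, T.Lisse k K V → T.Lisse k₀ K V

/-- an open subset of the affine line contains a subset `f ≠ 0` -/
def TheoryData.OnExists : Prop :=
  ∀ {F : IntermediateField P Ω} {x : Ω}, Transcendental F x → ∀ V, T.Lisse F (line F x) V →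
    ∃ f : Pol F, f ≠ 0 ∧ T.On F x f V

/-- a lisse sheaf on an open subset of the affine line is a lisse sheaf on a curve -/
def TheoryData.OnLisse : Prop :=
  ∀ {F : IntermediateField P Ω} {x : Ω}, Transcendental F x → ∀ f : Pol F, f ≠ 0 → ∀ V,
    T.On F x f V → T.Lisse F (line F x) V

/-- subsheaves -/
def TheoryData.OnSub : Prop :=
  ∀ {F : IntermediateField P Ω} {x : Ω} {f : Pol F} (V W), Sub V W → T.On F x f W → T.On F x f V

/-- in characteristic `p` the morphism from the open subset `f ≠ 0` to the affine line given by
`y = x + f(x)⁻ᵖ` is finite (it has poles at all the missing points and at infinity) and étale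
(its derivative is 1); direct image under this morphism -/
def TheoryData.OnInd : Prop :=
  ∀ {p : ℕ}, p.Prime → CharP P p → ∀ {F : IntermediateField P Ω} {x y : Ω}, Transcendental F x →
    ∀ f : Pol F, f ≠ 0 → y = x + ((f.val x)⁻¹) ^ p →
    ∀ (h : line F y ≤ line F x) V N, T.On F x f V → Ind h V N → T.On F y (noPoints F) N

/-- Belyi's theorem: for `P = ℚ` a nonempty open subset of the affine line over `P` has an open
subset which is finite étale over the affine line without `0` and `1`; direct image -/
def TheoryData.OnBelyi : Prop :=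
  CharZero P → (∀ S : Subfield P, S = ⊤) → ∀ {F : IntermediateField P Ω} {x : Ω}, F = ⊥ →
    Transcendental F x → ∀ f : Pol F, f ≠ 0 →
    ∃ y : Ω, Transcendental F y ∧ FinExt (line F y) (line F x) ∧
      ∀ (h : line F y ≤ line F x) V N, T.On F x f V → Ind h V N → T.On F y (twoPoints F) N

variable (P Ω Λ)

/-- Formal properties of `ℓ`-adic cohomology and of lisse `Λ`-sheaves. -/
structure Theory extends TheoryData P Ω Λ where
  coh_res : toTheoryData.CohRes
  coh_descent : toTheoryData.CohDescent
  coh_ind : toTheoryData.CohInd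
  coh_hom : toTheoryData.CohHom
  coh_sum : toTheoryData.CohSum
  coh_triv : toTheoryData.CohTriv
  coh_conj : toTheoryData.CohConj
  coh_semi : toTheoryData.CohSemi
  lisse_triv : toTheoryData.LisseTriv
  lisse_sub : toTheoryData.LisseSub
  lisse_hom : toTheoryData.LisseHom
  lisse_coh : toTheoryData.LisseCoh
  lisse_res : toTheoryData.LisseRes
  lisse_ind : toTheoryData.LisseInd
  lisse_descent : toTheoryData.LisseDescent
  lisse_generic : toTheoryData.LisseGeneric
  lisse_fin : toTheoryData.LisseFin
  on_exists : toTheoryData.OnExists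
  on_lisse : toTheoryData.OnLisse
  on_sub : toTheoryData.OnSub
  on_ind : toTheoryData.OnInd
  on_belyi : toTheoryData.OnBelyi

variable {P Ω Λ}

/-- the restriction of `V` to the geometric fundamental group is of geometric origin -/
def Theory.Geom (T : Theory P Ω Λ) (k K : IntermediateField P Ω) (V : Rp Λ K) : Prop :=
  ∃ H, T.Coh (K ⊔ ac k) H ∧ SubQuo (up le_sup_left V) H

/-- the relative Fontaine–Mazur conjecture for varieties over finitely generated fields `k` whose
function field `K` has transcendence degree at most `N` over the prime field -/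
def Theory.RelativeFM (T : Theory P Ω Λ) (N : ℕ) : Prop :=
  ∀ k K : IntermediateField P Ω, FG ⊥ k → IsFunctionField k K → GeomConn k K →
    Algebra.trdeg P K ≤ N → ∀ V, T.Lisse k K V → Semi V → T.Geom k K V

/-- `s` is a set of less than `N` variables, nonempty if `P` is finite, `F` is the field of
rational functions in these variables over `P`, and `x` is transcendental over `F` -/
def Variables (N : ℕ) (s : Set Ω) (F : IntermediateField P Ω) (x : Ω) : Prop :=
  s.Finite ∧ s.ncard < N ∧ (Finite P → s.Nonempty) ∧ AlgebraicIndependent P ((↑) : s → Ω) ∧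
    F = adjoin P s ∧ Transcendental F x

/-- the case of open subsets of the affine line with coordinate `x` over the rational function
field `F` in less than `N` variables, and irreducible sheaves -/
def Theory.LineFM (T : Theory P Ω Λ) (N : ℕ) : Prop :=
  ∀ (s : Set Ω) (F : IntermediateField P Ω) (x : Ω), Variables N s F x →
    ∀ V, T.Lisse F (line F x) V → Irr V → T.Geom F (line F x) V

/-- the case of the affine line itself -/
def Theory.AffineLineFM (T : Theory P Ω Λ) (N : ℕ) : Prop :=
  ∀ (s : Set Ω) (F : IntermediateField P Ω) (x : Ω), Variables N s F x →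
    ∀ V, T.On F x (noPoints F) V → Irr V → T.Geom F (line F x) V

/-- the case of the projective line without `0`, `1`, `∞` over the prime field -/
def Theory.ThreePointsFM (T : Theory P Ω Λ) : Prop :=
  ∀ (F : IntermediateField P Ω) (x : Ω), F = ⊥ → Transcendental F x →
    ∀ V, T.On F x (twoPoints F) V → Irr V → T.Geom F (line F x) V

/-- the known case (L. Lafforgue) of open subsets of the affine line over a finite prime field -/
def Theory.Lafforgue (T : Theory P Ω Λ) : Prop :=
  Finite P → ∀ (F : IntermediateField P Ω) (x : Ω), F = ⊥ → Transcendental F x →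
    ∀ V, T.Lisse F (line F x) V → Irr V → T.Geom F (line F x) V

end Fields

end Pool.Agent.TH117.RFM
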