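import Pool.Agent.TH117.RFM.Ind
import Pool.Agent.TH117.RFM.Aut

/-! # The fibration lemma -/

set_option autoImplicit false

namespace Pool.Agent.TH117.RFM

open IntermediateField Module

variable {P Ω : Type} [Field P] [Field Ω] [Algebra P Ω] {Λ : Type} [Field Λ]

/-- the conjecture for irreducible sheaves on varieties over `k` with function field `K` -/
def Theory.Case (T : Theory P Ω Λ) (k K : IntermediateField P Ω) : Prop :=
  ∀ V, T.Lisse k K V → Irr V → T.Geom k K V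

theorem Theory.geom_of_ind (T : Theory P Ω Λ) {k F F' : IntermediateField P Ω} (hle : F ≤ F')
    {N₀ : FRep Λ F'.fixingSubgroup} (hirr : Irr N₀) {N : FRep Λ F.fixingSubgroup}
    (hN : IsInd (fixingSubgroup_le hle) N₀ N) {W : Submodule Λ N.V} (hW : Inv N W)
    (hWi : Irr (subrep N W hW)) (hG : T.Geom k F (subrep N W hW)) : T.Geom k F' N₀ := by
  obtain ⟨H, hH, hs⟩ := hG
  have hq := hN.quo hirr (subrep N W hW) hWi (subrep_sub N W hW)
  have hle : F ⊔ ac k ≤ F' ⊔ ac k := sup_le_sup_right hle _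
  refine ⟨res (fixingSubgroup_le hle) H, T.coh_res hle H hH, ?_⟩
  exact subQuo_of_quo_sub (hq.res (fixingSubgroup_le le_sup_left))
    (hs.res (fixingSubgroup_le hle))

theorem Theory.Case.fin {T : Theory P Ω Λ} {k F F' : IntermediateField P Ω} (hkF : k ≤ F)
    (hF : FinExt F F') (h : T.Case k F) : T.Case k F' := by
  intro N₀ hN₀ hirr
  obtain ⟨t, ht, hcov⟩ := hF.cosets (fixingSubgroup_le hF.le)
  obtain ⟨N, hN⟩ := exists_ind (fixingSubgroup_le hF.le) N₀ t ht hcov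
  have hNl := T.lisse_ind hkF hF hF.le N₀ N hN₀ hN
  obtain ⟨W, hW, hWi⟩ := exists_irr_sub N (hN.nontrivial hirr.1)
  exact T.geom_of_ind hF.le hirr hN hW hWi
    (h (subrep N W hW) (T.lisse_sub _ _ (subrep_sub N W hW) hNl) hWi)

theorem lhom_ρ {G : Type} [Group G] (M N : FRep Λ G) (g : G) (φ : M.V →ₗ[Λ] N.V) :
    (lhom M N).ρ g φ = N.ρ g ∘ₗ φ ∘ₗ M.ρ g⁻¹ := rfl

theorem exists_lift [IsAlgClosed Ω] {F F' K : IntermediateField P Ω} {x : Ω} (hx : Transcendental F x)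
    (hK : K = F ⊔ adjoin P {x}) (hF : FinExt F F') (τ : F'.fixingSubgroup) :
    ∃ σ : (K ⊔ F').fixingSubgroup, ∀ a ∈ ac F', (σ : Gal(Ω/P)) a = (τ : Gal(Ω/P)) a := by
  have hx' : Transcendental F' x := by
    intro h
    apply hx
    rw [← mem_ac, ← hF.ac_eq, mem_ac]
    exact h
  obtain ⟨σ, hσx, hσ⟩ := exists_fix hx' (τ : Gal(Ω/P)) τ.2
  have h1 : σ ∈ F'.fixingSubgroup := by
    rw [IntermediateField.mem_fixingSubgroup_iff]
    intro a ha
    rw [hσ a (le_ac F' ha)]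
    exact (IntermediateField.mem_fixingSubgroup_iff _ _).1 τ.2 a ha
  have h2 : σ ∈ (adjoin P ({x} : Set Ω)).fixingSubgroup := by
    rw [IntermediateField.mem_fixingSubgroup_iff]
    have h3 : adjoin P ({x} : Set Ω) ≤ fixedField (Subgroup.zpowers σ) := by
      rw [adjoin_le_iff]
      intro y hy
      have hy' : y = x := hy
      rw [hy']
      rintro ⟨_, n, rfl⟩
      have h4 : σ ∈ MulAction.stabilizer Gal(Ω/P) x := hσx
      exact (MulAction.stabilizer Gal(Ω/P) x).zpow_mem h4 n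
    intro a ha
    exact h3 ha ⟨_, Subgroup.mem_zpowers _⟩
  refine ⟨⟨σ, ?_⟩, hσ⟩
  rw [hK, fixingSubgroup_sup, fixingSubgroup_sup]
  exact ⟨⟨fixingSubgroup_le hF.le h1, h2⟩, h1⟩

theorem Theory.fibration_one [IsAlgClosed Ω] (T : Theory P Ω Λ) {k F K : IntermediateField P Ω}
    {x : Ω} (hkF : k ≤ F)
    (hfg : FG k F) (hx : Transcendental F x) (hK : K = F ⊔ adjoin P {x}) (h2 : T.Case k F)
    (V : FRep Λ K.fixingSubgroup) (hV : T.Lisse k K V) (hirr : Irr V) (hG : T.Geom F K V) :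
    T.Geom k K V := by
  have hFK : F ≤ K := hK ▸ le_sup_left
  have hFGK : FG F K := ⟨{x}, Set.finite_singleton x, hK⟩
  have hkK : k ≤ K := hkF.trans hFK
  -- geometric origin over the algebraic closure of `F`
  obtain ⟨H, hH, hsub⟩ := hG
  have hs := hsub.sub (T.coh_semi hFGK H hH)
  obtain ⟨F₁, hF₁, hle₁, W₁, hW₁, hiso⟩ := T.coh_descent hFK H hH
  obtain ⟨F', hF', hF₁F', hst⟩ := hF₁.exists_stable
  have hKL : K ≤ K ⊔ F' := le_sup_left
  have hF'L : F' ≤ K ⊔ F' := le_sup_right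
  have hLA : K ⊔ F' ≤ K ⊔ ac F := sup_le_sup_left hF'.le_ac _
  have hK₁L : K ⊔ F₁ ≤ K ⊔ F' := sup_le_sup_left hF₁F' _
  have hFGL : FG k (K ⊔ F') := (hfg.trans hFGK).trans (hF'.sup hFK).fg
  generalize hLdef : K ⊔ F' = L at *
  let W : FRep Λ L.fixingSubgroup := res (fixingSubgroup_le hK₁L) W₁
  have hW : T.Coh L W := T.coh_res hK₁L W₁ hW₁
  let VL : FRep Λ L.fixingSubgroup := res (fixingSubgroup_le hKL) V
  -- an injection `V → W`
  obtain ⟨j, hj, hji⟩ : ∃ j : V.V →ₗ[Λ] W.V,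
      (∀ (g : (K ⊔ ac F).fixingSubgroup) v,
        j (VL.ρ (Subgroup.inclusion (fixingSubgroup_le hLA) g) v) =
          W.ρ (Subgroup.inclusion (fixingSubgroup_le hLA) g) (j v)) ∧ Function.Injective j := by
    obtain ⟨a, ha, hai⟩ := hs
    obtain ⟨b, hb, hbi⟩ := hiso
    exact ⟨b ∘ₗ a, fun g v => (congrArg b (ha g v)).trans (hb g (a v)), hbi.1.comp hai⟩
  have hstA : Stable K (K ⊔ ac F) := (stable_self K).sup ((stable_ac F).mono hFK)
  let N : Submodule Λ (V.V →ₗ[Λ] W.V) :=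
    { carrier := {φ | ∀ (g : (K ⊔ ac F).fixingSubgroup) v,
        φ (VL.ρ (Subgroup.inclusion (fixingSubgroup_le hLA) g) v) =
          W.ρ (Subgroup.inclusion (fixingSubgroup_le hLA) g) (φ v)}
      add_mem' := by
        intro φ ψ hφ hψ g v
        simp only [LinearMap.add_apply, hφ g v, hψ g v, map_add]
      zero_mem' := by intro g v; simp
      smul_mem' := by
        intro c φ hφ g v
        simp only [LinearMap.smul_apply, hφ g v, map_smul] }
  have hN : Inv (lhom VL W) N := by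
    intro σ φ hφ g v
    have hmem : (σ : Gal(Ω/P))⁻¹ * g * σ ∈ (K ⊔ ac F).fixingSubgroup :=
      hstA.conj_mem (fixingSubgroup_le hKL σ.2) g.2
    have e1 : σ⁻¹ * Subgroup.inclusion (fixingSubgroup_le hLA) g =
        Subgroup.inclusion (fixingSubgroup_le hLA) ⟨_, hmem⟩ * σ⁻¹ := by
      apply Subtype.ext
      simp [mul_assoc]
    show W.ρ σ (φ (VL.ρ σ⁻¹ (VL.ρ (Subgroup.inclusion (fixingSubgroup_le hLA) g) v))) =
      W.ρ (Subgroup.inclusion (fixingSubgroup_le hLA) g) (W.ρ σ (φ (VL.ρ σ⁻¹ v)))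
    rw [← ρ_mul VL, e1, ρ_mul VL, hφ ⟨_, hmem⟩, ← ρ_mul, ← ρ_mul]
    congr 2
    apply Subtype.ext
    simp [mul_assoc]
  let NL : FRep Λ L.fixingSubgroup := subrep (lhom VL W) N hN
  have hNL : T.Lisse k L NL := T.lisse_sub _ _ (subrep_sub _ _ _)
    (T.lisse_hom _ _ (T.lisse_res hkK hKL hFGL V hV) (T.lisse_coh hFGL W hW))
  have hNLtriv : ∀ g : L.fixingSubgroup, (g : Gal(Ω/P)) ∈ (K ⊔ ac F).fixingSubgroup →
      ∀ φ : NL.V, NL.ρ g φ = φ := by
    intro g hg φ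
    apply Subtype.ext
    apply LinearMap.ext
    intro v
    show W.ρ g (φ.1 (VL.ρ g⁻¹ v)) = φ.1 v
    have := φ.2 (⟨g, hg⟩ : (K ⊔ ac F).fixingSubgroup) (VL.ρ g⁻¹ v)
    have e : Subgroup.inclusion (fixingSubgroup_le hLA) ⟨g, hg⟩ = g := rfl
    rw [e, ρ_inv_apply VL] at this
    exact this.symm
  -- the action of `Γ_{F'}`
  have hlift := exists_lift hx hK hF'
  rw [hLdef] at hlift
  have hFL : F' ≤ L := hF'L
  have hagree : ∀ σ σ' : L.fixingSubgroup,
      (∀ a ∈ ac F', (σ : Gal(Ω/P)) a = (σ' : Gal(Ω/P)) a) → NL.ρ σ = NL.ρ σ' := by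
    intro σ σ' h
    have hmem : ((σ⁻¹ * σ' : L.fixingSubgroup) : Gal(Ω/P)) ∈ (K ⊔ ac F).fixingSubgroup := by
      rw [fixingSubgroup_sup]
      refine ⟨fixingSubgroup_le hKL (σ⁻¹ * σ').2, ?_⟩
      show _ ∈ (ac F).fixingSubgroup
      rw [IntermediateField.mem_fixingSubgroup_iff]
      intro a ha
      rw [← hF'.ac_eq] at ha
      show (σ : Gal(Ω/P))⁻¹ ((σ' : Gal(Ω/P)) a) = a
      rw [← h a ha]
      show ((σ : Gal(Ω/P))⁻¹ * (σ : Gal(Ω/P))) a = a
      rw [inv_mul_cancel]; rfl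
    apply LinearMap.ext
    intro φ
    have h5 := hNLtriv _ hmem φ
    have h6 : NL.ρ σ (NL.ρ (σ⁻¹ * σ') φ) = NL.ρ σ φ := by rw [h5]
    rw [← ρ_mul, mul_inv_cancel_left] at h6
    exact h6.symm
  choose s hs' using hlift
  let N' : FRep Λ F'.fixingSubgroup :=
    { V := NL.V
      ρ :=
        { toFun := fun τ => NL.ρ (s τ)
          map_one' := by
            rw [hagree (s 1) 1 (fun a ha => by rw [hs' 1 a ha]; rfl), map_one]
          map_mul' := by
            intro τ τ'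
            rw [← map_mul]
            apply hagree
            intro a ha
            rw [hs' _ a ha]
            show (τ : Gal(Ω/P)) ((τ' : Gal(Ω/P)) a) = (s τ : Gal(Ω/P)) ((s τ' : Gal(Ω/P)) a)
            rw [hs' τ' a ha, hs' τ _ (ac_map τ'.2 ha)] } }
  have hN'res : ∀ σ : L.fixingSubgroup,
      N'.ρ (Subgroup.inclusion (fixingSubgroup_le hFL) σ) = NL.ρ σ := by
    intro σ
    exact hagree _ _ (fun a ha => hs' _ a ha)
  have hN' : T.Lisse k F' N' := by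
    refine T.lisse_descent (hkF.trans hF'.le) hFL hFGL ?_ N' ?_ ?_
    · intro τ hτ
      exact ⟨s ⟨τ, hτ⟩, (s ⟨τ, hτ⟩).2, hs' ⟨τ, hτ⟩⟩
    · intro h' g v
      show NL.ρ (s _) v = v
      rw [hagree (s _) 1 (fun a ha => ?_), map_one]; rfl
      rw [hs' _ a ha]
      exact (IntermediateField.mem_fixingSubgroup_iff _ _).1 g.2 a ha
    · refine T.lisse_sub _ NL ⟨LinearMap.id, ?_, fun _ _ h => h⟩ hNL
      intro g v
      exact congrArg (fun φ : NL.V →ₗ[Λ] NL.V => φ v) (hN'res g)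
  have hjN : j ∈ N := hj
  have hnt := hirr.1
  have hj0 : j ≠ 0 := by
    rintro rfl
    obtain ⟨v, hv⟩ := exists_ne (0 : V.V)
    exact hv (hji (by simp))
  have hN'nt : Nontrivial N'.V := ⟨⟨⟨j, hjN⟩, 0, fun h => hj0 (congrArg Subtype.val h)⟩⟩
  obtain ⟨U, hU, hirrU⟩ := exists_irr_sub N' hN'nt
  obtain ⟨HT, hHT, hsq⟩ := h2.fin hkF hF' (subrep N' U hU)
    (T.lisse_sub _ _ (subrep_sub N' U hU) hN') hirrU
  -- everything over `B' = L ac(k)`
  have hC : F' ⊔ ac k ≤ L ⊔ ac k := sup_le_sup_right hFL _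
  have hLB : L ≤ L ⊔ ac k := le_sup_left
  have hF'B : F' ≤ L ⊔ ac k := hFL.trans hLB
  have hKB : K ≤ L ⊔ ac k := hKL.trans hLB
  have hP : ac ⊥ ≤ L ⊔ ac k := (ac_mono bot_le).trans le_sup_right
  let HT' : FRep Λ (L ⊔ ac k).fixingSubgroup := res (fixingSubgroup_le hC) HT
  have hHT' : T.Coh (L ⊔ ac k) HT' := T.coh_res hC HT hHT
  let N₀ : FRep Λ (L ⊔ ac k).fixingSubgroup := res (fixingSubgroup_le hF'B) (subrep N' U hU)
  have hsq' : SubQuo N₀ HT' := hsq.res (fixingSubgroup_le hC)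
  have hsemi := T.coh_semi hFGL HT' hHT'
  obtain ⟨i, hi, hii⟩ := hsq'.sub hsemi
  obtain ⟨p, hp, hpi⟩ := hsemi.retract i hi hii
  let W' : FRep Λ (L ⊔ ac k).fixingSubgroup := res (fixingSubgroup_le hLB) W
  have hW' : T.Coh (L ⊔ ac k) W' := T.coh_res hLB W hW
  obtain ⟨H₁, hH₁, hsub₁⟩ := T.coh_hom hP HT' W' hHT' hW'
  have hsub₂ : Sub (lhom N₀ W') H₁ := (lhom_sub p hp (fun v => ⟨i v, hpi v⟩)).trans hsub₁
  obtain ⟨q, hq, hqi⟩ := hsub₂
  let f : V.V →ₗ[Λ] (N₀.V →ₗ[Λ] W'.V) :=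
    { toFun := fun v =>
        { toFun := fun n => n.1.1 v
          map_add' := fun _ _ => rfl
          map_smul' := fun _ _ => rfl }
      map_add' := fun v w => LinearMap.ext fun n => map_add n.1.1 v w
      map_smul' := fun c v => LinearMap.ext fun n => map_smul n.1.1 c v }
  have hf : Equi (res (fixingSubgroup_le hKB) V) (lhom N₀ W') f := by
    intro g v
    apply LinearMap.ext
    intro n
    show n.1.1 (V.ρ (Subgroup.inclusion (fixingSubgroup_le hKB) g) v) =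
      W.ρ (Subgroup.inclusion (fixingSubgroup_le hLB) g) ((N₀.ρ g⁻¹ n).1.1 v)
    have h3 : (N₀.ρ g⁻¹ n).1 = NL.ρ (Subgroup.inclusion (fixingSubgroup_le hLB) g)⁻¹ n.1 :=
      congrArg (fun φ : NL.V →ₗ[Λ] NL.V => φ n.1)
        (hN'res (Subgroup.inclusion (fixingSubgroup_le hLB) g)⁻¹)
    have h4 : (N₀.ρ g⁻¹ n).1.1 v = W.ρ (Subgroup.inclusion (fixingSubgroup_le hLB) g)⁻¹
        (n.1.1 (VL.ρ (Subgroup.inclusion (fixingSubgroup_le hLB) g)⁻¹⁻¹ v)) := by
      rw [h3]; rfl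
    rw [h4, ρ_inv_apply W, inv_inv]
    rfl
  have hf0 : q ∘ₗ f ≠ 0 := by
    intro h0
    have := hirrU.1
    obtain ⟨n, hn⟩ := exists_ne (0 : U)
    apply hn
    apply Subtype.ext
    apply Subtype.ext
    apply LinearMap.ext
    intro v
    have h5 : q (f v) = 0 := congrArg (fun φ : V.V →ₗ[Λ] H₁.V => φ v) h0
    have h6 : f v = 0 := hqi (by rw [h5]; exact (map_zero q).symm)
    exact congrArg (fun φ : N₀.V →ₗ[Λ] W'.V => φ n) h6
  have hstF' : Stable K F' := hst.mono hFK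
  have hstB : Stable K (L ⊔ ac k) := by
    rw [← hLdef]
    exact ((stable_self K).sup hstF').sup ((stable_ac k).mono hkK)
  obtain ⟨Z, hZ, hVZ⟩ := exists_sub_of_ne_zero (fixingSubgroup_le hKB) (T.Coh (L ⊔ ac k))
    (fun σ hσ g hg => hstB.conj_mem hσ hg)
    (fun σ hσ M hM => T.coh_conj _ σ _ (fun a => hstB.mem_iff hσ a) M hM)
    (fun M N hM hN => T.coh_sum hP M N hM hN) V hirr H₁ hH₁ (q ∘ₗ f)
    (fun g v => (congrArg q (hf g v)).trans (hq g (f v))) hf0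
  -- descent to `K ac(k)`
  have hfin : FinExt (K ⊔ ac k) (L ⊔ ac k) := by
    have := hF'.sup (K := K ⊔ ac k) (hFK.trans le_sup_left)
    rwa [sup_right_comm, hLdef] at this
  have hle : K ⊔ ac k ≤ L ⊔ ac k := sup_le_sup_right hKL _
  obtain ⟨t, ht, hcov⟩ := hfin.cosets (fixingSubgroup_le hle)
  obtain ⟨M, hM⟩ := exists_ind (fixingSubgroup_le hle) Z t ht hcov
  have hVM : Sub (res (fixingSubgroup_le (le_sup_left : K ≤ K ⊔ ac k)) V) M := hM.sub hVZ
  exact ⟨M, T.coh_ind hfin hle Z M hZ hM, hVM.subQuo⟩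

theorem Theory.fibration [IsAlgClosed Ω] (T : Theory P Ω Λ) {k F K : IntermediateField P Ω} {x : Ω}
    (hkF : k ≤ F)
    (hfg : FG k F) (hx : Transcendental F x) (hK : K = F ⊔ adjoin P {x}) (h1 : T.Case F K)
    (h2 : T.Case k F) : T.Case k K := fun V hV hirr =>
  T.fibration_one hkF hfg hx hK h2 V hV hirr
    (h1 V (T.lisse_generic hkF hfg (hK ▸ le_sup_left) V hV) hirr)

end Pool.Agent.TH117.RFM
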