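import Pool.Agent.TH117.RFM.Defs

/-! # Fields -/

set_option autoImplicit false

namespace Pool.Agent.TH117.RFM

open IntermediateField Polynomial

section Alg

variable {Ω : Type} [Field Ω]

theorem isAlgebraic_iff_poly (R : Type) [CommRing R] [Algebra R Ω]
    (hR : Function.Injective (algebraMap R Ω)) (a : Ω) :
    IsAlgebraic R a ↔ ∃ p : Polynomial Ω, p ≠ 0 ∧ (∀ n, p.coeff n ∈ (algebraMap R Ω).range) ∧
      p.eval a = 0 := by
  constructor
  · rintro ⟨p, hp, h⟩
    refine ⟨p.map (algebraMap R Ω), (Polynomial.map_ne_zero_iff hR).2 hp, ?_, ?_⟩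
    · intro n
      rw [coeff_map]
      exact ⟨_, rfl⟩
    · rw [eval_map_algebraMap]; exact h
  · rintro ⟨p, hp, hc, h⟩
    have h1 : p ∈ Polynomial.lifts (algebraMap R Ω) := by
      rw [Polynomial.lifts_iff_coeff_lifts]
      intro n
      obtain ⟨r, hr⟩ := hc n
      exact ⟨r, hr⟩
    obtain ⟨q, rfl⟩ := (Polynomial.mem_lifts _).1 h1
    refine ⟨q, ?_, ?_⟩
    · rintro rfl
      exact hp (Polynomial.map_zero _)
    · rw [← eval_map_algebraMap]; exact h

theorem isAlgebraic_mono' (R T : Type) [CommRing R] [Algebra R Ω] [CommRing T] [Algebra T Ω]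
    (hR : Function.Injective (algebraMap R Ω)) (hT : Function.Injective (algebraMap T Ω))
    (h : ∀ r : R, algebraMap R Ω r ∈ (algebraMap T Ω).range) {a : Ω} (ha : IsAlgebraic R a) :
    IsAlgebraic T a := by
  rw [isAlgebraic_iff_poly R hR] at ha
  rw [isAlgebraic_iff_poly T hT]
  obtain ⟨p, hp, hc, he⟩ := ha
  refine ⟨p, hp, fun n => ?_, he⟩
  obtain ⟨r, hr⟩ := hc n
  rw [← hr]; exact h r

end Alg

variable {P Ω : Type} [Field P] [Field Ω] [Algebra P Ω]

theorem isAlgebraic_mono {F K : IntermediateField P Ω} (h : F ≤ K) {a : Ω}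
    (ha : IsAlgebraic F a) : IsAlgebraic K a :=
  isAlgebraic_mono' F K Subtype.val_injective Subtype.val_injective
    (fun r => ⟨⟨r, h r.2⟩, rfl⟩) ha

theorem mem_ac {F : IntermediateField P Ω} {a : Ω} : a ∈ ac F ↔ IsAlgebraic F a := by
  show a ∈ algebraicClosure F Ω ↔ _
  exact mem_algebraicClosure_iff

theorem le_ac (F : IntermediateField P Ω) : F ≤ ac F := by
  intro a ha
  rw [mem_ac]
  exact isAlgebraic_algebraMap (⟨a, ha⟩ : F)

theorem ac_mono {F K : IntermediateField P Ω} (h : F ≤ K) : ac F ≤ ac K := by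
  intro a ha
  rw [mem_ac] at ha ⊢
  exact isAlgebraic_mono h ha

theorem ac_trans {F : IntermediateField P Ω} {a : Ω} (ha : IsAlgebraic (ac F) a) :
    IsAlgebraic F a := by
  have h1 : IsAlgebraic (algebraicClosure F Ω) a :=
    isAlgebraic_mono' (ac F) (algebraicClosure F Ω) Subtype.val_injective Subtype.val_injective
      (fun r => ⟨⟨r, r.2⟩, rfl⟩) ha
  exact h1.restrictScalars F

theorem ac_ac (F : IntermediateField P Ω) : ac (ac F) = ac F := by
  apply le_antisymm
  · intro a ha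
    rw [mem_ac] at ha ⊢
    exact ac_trans ha
  · exact le_ac _

theorem ac_le {F K : IntermediateField P Ω} (h : F ≤ ac K) : ac F ≤ ac K := by
  rw [← ac_ac K]
  exact ac_mono h

theorem FinExt.le {F L : IntermediateField P Ω} (h : FinExt F L) : F ≤ L := by
  obtain ⟨s, -, -, rfl⟩ := h
  exact le_sup_left

theorem FinExt.le_ac {F L : IntermediateField P Ω} (h : FinExt F L) : L ≤ ac F := by
  obtain ⟨s, -, hs, rfl⟩ := h
  refine sup_le (RFM.le_ac F) ?_
  rw [adjoin_le_iff]
  intro a ha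
  exact mem_ac.2 (hs a ha)

theorem FinExt.ac_eq {F L : IntermediateField P Ω} (h : FinExt F L) : ac L = ac F :=
  le_antisymm (ac_le h.le_ac) (ac_mono h.le)

theorem FinExt.sup {F L : IntermediateField P Ω} (h : FinExt F L) {K : IntermediateField P Ω}
    (hK : F ≤ K) : FinExt K (K ⊔ L) := by
  obtain ⟨s, hf, hs, rfl⟩ := h
  refine ⟨s, hf, fun a ha => isAlgebraic_mono hK (hs a ha), ?_⟩
  rw [← sup_assoc, sup_eq_left.2 hK]

theorem FinExt.fg {F L : IntermediateField P Ω} (h : FinExt F L) : FG F L := by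
  obtain ⟨s, hf, hs, rfl⟩ := h
  exact ⟨s, hf, rfl⟩

theorem FinSepExt.finExt {F L : IntermediateField P Ω} (h : FinSepExt F L) : FinExt F L := by
  obtain ⟨s, hf, hs, rfl⟩ := h
  exact ⟨s, hf, fun a ha => (hs a ha).isIntegral.isAlgebraic, rfl⟩

theorem FG.trans {F K L : IntermediateField P Ω} (h : FG F K) (h' : FG K L) : FG F L := by
  obtain ⟨s, hf, rfl⟩ := h
  obtain ⟨s', hf', rfl⟩ := h'
  refine ⟨s ∪ s', hf.union hf', ?_⟩
  rw [sup_assoc, ← IntermediateField.gc.l_sup]
  rfl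

theorem FG.sup {F K : IntermediateField P Ω} (h : FG F K) {L : IntermediateField P Ω}
    (hL : F ≤ L) : FG L (L ⊔ K) := by
  obtain ⟨s, hf, rfl⟩ := h
  refine ⟨s, hf, ?_⟩
  rw [← sup_assoc, sup_eq_left.2 hL]

theorem FG.mono {F K L : IntermediateField P Ω} (h : FG F L) (hK : F ≤ K) (hL : K ≤ L) :
    FG K L := by
  obtain ⟨s, hf, rfl⟩ := h
  refine ⟨s, hf, ?_⟩
  apply le_antisymm
  · exact sup_le_sup_right hK _
  · exact sup_le hL le_sup_right

theorem FinExt.trans {F K L : IntermediateField P Ω} (h : FinExt F K) (h' : FinExt K L) :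
    FinExt F L := by
  obtain ⟨s, hf, hs, rfl⟩ := id h
  obtain ⟨s', hf', hs', rfl⟩ := h'
  refine ⟨s ∪ s', hf.union hf', ?_, ?_⟩
  · rintro a (ha | ha)
    · exact hs a ha
    · exact ac_trans (isAlgebraic_mono h.le_ac (hs' a ha))
  · rw [sup_assoc, ← IntermediateField.gc.l_sup]
    rfl

theorem FinExt.mono {F K L : IntermediateField P Ω} (h : FinExt F L) (hK : F ≤ K) (hL : K ≤ L) :
    FinExt K L := by
  obtain ⟨s, hf, hs, rfl⟩ := h
  refine ⟨s, hf, fun a ha => isAlgebraic_mono hK (hs a ha), ?_⟩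
  apply le_antisymm
  · exact sup_le_sup_right hK _
  · exact sup_le hL le_sup_right

end Pool.Agent.TH117.RFM
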