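import Pool.Agent.TH117.RFM.Rep

/-! # Induced representations -/

set_option autoImplicit false

namespace Pool.Agent.TH117.RFM

open Module

variable {Λ : Type} [Field Λ] {A : Type} [Group A]

/-- the space of the induced representation -/
def indV {H H' : Subgroup A} (h : H ≤ H') (M : FRep Λ H) : Submodule Λ (H' → M.V) where
  carrier := {f | ∀ (a : H) (x : H'), f (Subgroup.inclusion h a * x) = M.ρ a (f x)}
  add_mem' := by
    intro f g hf hg a x
    simp [hf a x, hg a x]
  zero_mem' := by intro a x; simp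
  smul_mem' := by
    intro c f hf a x
    simp [hf a x]

theorem indV_finite {H H' : Subgroup A} (h : H ≤ H') (M : FRep Λ H)
    (s : Set H') (hs : s.Finite) (hcov : ∀ x : H', ∃ y ∈ s, ∃ a : H, x = Subgroup.inclusion h a * y) :
    FiniteDimensional Λ (indV h M) := by
  have := hs.to_subtype
  let φ : indV h M →ₗ[Λ] (s → M.V) :=
    { toFun := fun f y => f.1 y
      map_add' := fun _ _ => rfl
      map_smul' := fun _ _ => rfl }
  refine FiniteDimensional.of_injective φ ?_
  intro f g hfg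
  apply Subtype.ext
  funext x
  obtain ⟨y, hy, a, rfl⟩ := hcov x
  rw [f.2 a y, g.2 a y]
  exact congrArg (M.ρ a) (congrFun hfg ⟨y, hy⟩)

theorem exists_ind {H H' : Subgroup A} (h : H ≤ H') (M : FRep Λ H)
    (s : Set H') (hs : s.Finite) (hcov : ∀ x : H', ∃ y ∈ s, ∃ a : H, x = Subgroup.inclusion h a * y) :
    ∃ N : FRep Λ H', IsInd h M N := by
  have := indV_finite h M s hs hcov
  refine ⟨⟨indV h M,
    { toFun := fun g =>
        { toFun := fun f => ⟨fun x => f.1 (x * g), fun a x => by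
            show f.1 (Subgroup.inclusion h a * x * g) = _
            rw [mul_assoc]; exact f.2 a (x * g)⟩
          map_add' := fun _ _ => rfl
          map_smul' := fun _ _ => rfl }
      map_one' := ?_
      map_mul' := ?_ }⟩, fun x => (LinearMap.proj x).comp (indV h M).subtype, ?_, ?_, ?_⟩
  · apply LinearMap.ext
    intro f
    apply Subtype.ext
    funext x
    show f.1 (x * 1) = f.1 x
    rw [mul_one]
  · intro g g'
    apply LinearMap.ext
    intro f
    apply Subtype.ext
    funext x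
    show f.1 (x * (g * g')) = f.1 (x * g * g')
    rw [mul_assoc]
  · intro v hv
    apply Subtype.ext
    funext x
    exact hv x
  · intro f
    constructor
    · rintro ⟨f', hf'⟩
      have hf'' : f'.1 = f := funext hf'
      rw [← hf'']
      exact f'.2
    · intro hf
      exact ⟨⟨f, hf⟩, fun x => rfl⟩
  · intro g v x
    rfl

theorem IsInd.out {H H' : Subgroup A} {h : H ≤ H'} {M : FRep Λ H} {N : FRep Λ H'}
    (hN : IsInd h M N) : ∃ e : N.V →ₗ[Λ] (H' → M.V), Function.Injective e ∧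
      (∀ f, (∃ v, e v = f) ↔ ∀ (a : H) (x : H'), f (Subgroup.inclusion h a * x) = M.ρ a (f x)) ∧
      ∀ g v x, e (N.ρ g v) x = e v (x * g) := by
  obtain ⟨e, he, hr, hρ⟩ := hN
  refine ⟨LinearMap.pi e, ?_, ?_, ?_⟩
  · rw [← LinearMap.ker_eq_bot, Submodule.eq_bot_iff]
    intro v hv
    exact he v (fun x => congrFun (show LinearMap.pi e v = 0 from hv) x)
  · intro f
    refine Iff.trans ?_ (hr f)
    constructor
    · rintro ⟨v, hv⟩
      exact ⟨v, fun x => congrFun hv x⟩
    · rintro ⟨v, hv⟩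
      exact ⟨v, funext hv⟩
  · intro g v x
    exact hρ g v x

theorem IsInd.quo {H H' : Subgroup A} {h : H ≤ H'} {M : FRep Λ H} {N : FRep Λ H'}
    (hN : IsInd h M N) (hM : Irr M) (T : FRep Λ H') (hT : Irr T) (hs : Sub T N) :
    Quo M (res h T) := by
  obtain ⟨e, he, hr, hρ⟩ := hN.out
  obtain ⟨i, hi, hinj⟩ := hs
  let f : T.V →ₗ[Λ] M.V := LinearMap.proj (1 : H') ∘ₗ e ∘ₗ i
  have hf : Equi (res h T) M f := by
    intro a v
    show e (i (T.ρ (Subgroup.inclusion h a) v)) 1 = M.ρ a (e (i v) 1)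
    rw [hi, hρ, one_mul]
    have := (hr (e (i v))).1 ⟨_, rfl⟩ a 1
    rw [mul_one] at this
    exact this
  refine hM.quo f hf ?_
  intro h0
  have := hT.1
  obtain ⟨v, hv⟩ := exists_ne (0 : T.V)
  apply hv
  apply hinj
  apply he
  funext x
  have h1 : e (i (T.ρ x v)) 1 = 0 := congrArg (fun g : T.V →ₗ[Λ] M.V => g (T.ρ x v)) h0
  rw [hi, hρ, one_mul] at h1
  rw [h1]; simp

theorem IsInd.nontrivial {H H' : Subgroup A} {h : H ≤ H'} {M : FRep Λ H} {N : FRep Λ H'}
    (hN : IsInd h M N) (hM : Nontrivial M.V) : Nontrivial N.V := by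
  classical
  obtain ⟨e, he, hr, hρ⟩ := hN.out
  obtain ⟨v, hv⟩ := exists_ne (0 : M.V)
  let f : H' → M.V := fun x => if hx : (x : A) ∈ H then M.ρ ⟨x, hx⟩ v else 0
  have hf : ∀ (a : H) (x : H'), f (Subgroup.inclusion h a * x) = M.ρ a (f x) := by
    intro a x
    by_cases hx : (x : A) ∈ H
    · have hx' : ((Subgroup.inclusion h a * x : H') : A) ∈ H := H.mul_mem a.2 hx
      simp only [f, dif_pos hx, dif_pos hx']
      rw [← ρ_mul]
      rfl
    · have hx' : ((Subgroup.inclusion h a * x : H') : A) ∉ H := by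
        intro h'
        apply hx
        have : (x : A) = (a : A)⁻¹ * ((a : A) * x) := by simp
        rw [this]
        exact H.mul_mem (H.inv_mem a.2) h'
      simp only [f, dif_neg hx, dif_neg hx', map_zero]
  obtain ⟨n, hn⟩ := (hr f).2 hf
  refine ⟨n, 0, ?_⟩
  rintro rfl
  apply hv
  have h1 : f 1 = 0 := by rw [← hn]; simp
  have h2 : ((1 : H') : A) ∈ H := H.one_mem
  simp only [f, dif_pos h2] at h1
  have h3 : (⟨((1 : H') : A), h2⟩ : H) = 1 := rfl
  rw [h3, map_one] at h1
  exact h1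

theorem IsInd.sub {H H' : Subgroup A} {h : H ≤ H'} {M : FRep Λ H'} {Z : FRep Λ H} {N : FRep Λ H'}
    (hs : Sub (res h M) Z) (hN : IsInd h Z N) : Sub M N := by
  obtain ⟨e, he, hr, hρ⟩ := hN.out
  obtain ⟨f, hf, hinj⟩ := hs
  let φ : M.V →ₗ[Λ] (H' → Z.V) :=
    { toFun := fun v x => f (M.ρ x v)
      map_add' := by intro v w; funext x; simp
      map_smul' := by intro c v; funext x; simp }
  have hφ : ∀ v, φ v ∈ LinearMap.range e := by
    intro v
    refine (hr _).2 ?_
    intro a x
    show f (M.ρ (Subgroup.inclusion h a * x) v) = Z.ρ a (f (M.ρ x v))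
    rw [ρ_mul]
    exact hf a _
  let ψ := (LinearEquiv.ofInjective e he).symm.toLinearMap ∘ₗ φ.codRestrict _ hφ
  have hψ : ∀ v, e (ψ v) = φ v := by
    intro v
    have : LinearEquiv.ofInjective e he (ψ v) = φ.codRestrict _ hφ v := by
      simp only [ψ, LinearMap.comp_apply, LinearEquiv.coe_coe, LinearEquiv.apply_symm_apply]
    exact congrArg Subtype.val this
  refine ⟨ψ, ?_, ?_⟩
  · intro g v
    apply he
    funext x
    rw [hρ, hψ, hψ]
    show f (M.ρ x (M.ρ g v)) = f (M.ρ (x * g) v)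
    rw [ρ_mul]
  · intro v w hvw
    apply hinj
    have h1 : φ v 1 = φ w 1 := by rw [← hψ, ← hψ, hvw]
    have h2 : ∀ u, φ u 1 = f u := by
      intro u
      show f (M.ρ 1 u) = f u
      rw [map_one]; rfl
    rwa [h2, h2] at h1

end Pool.Agent.TH117.RFM
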