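import Pool.Agent.TH117.RFM.Fib

/-! # Reduction to open subsets of the line -/

set_option autoImplicit false

namespace Pool.Agent.TH117.RFM

open IntermediateField Module

section Reps

variable {Λ : Type} [Field Λ] {A : Type} [Group A]

theorem Irr.semi {G : Type} [Group G] {M : FRep Λ G} (h : Irr M) : Semi M := by
  intro W hW
  rcases h.2 W hW with rfl | rfl
  · exact ⟨⊤, fun _ _ _ => trivial, isCompl_bot_top⟩
  · exact ⟨⊥, fun g v hv => by
      rw [Submodule.mem_bot] at hv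
      show M.ρ g v ∈ _
      rw [hv, map_zero]
      exact Submodule.zero_mem _, isCompl_top_bot⟩

theorem exists_sub_of_semi {H G' : Subgroup A} (hH : H ≤ G') (C : FRep Λ H → Prop)
    (hsum : ∀ M N, C M → C N → ∃ K, C K ∧ Sub (dsum M N) K)
    (M : FRep Λ G') (hM : Semi M) (Z₀ : FRep Λ H) (hZ₀ : C Z₀)
    (h : ∀ U (hU : Inv M U), Irr (subrep M U hU) → ∃ Z, C Z ∧ Sub (res hH (subrep M U hU)) Z) :
    ∃ Z, C Z ∧ Sub (res hH M) Z := by
  classical
  have hex : ∃ n, ∃ Z, C Z ∧ ∃ f : M.V →ₗ[Λ] Z.V, Equi (res hH M) Z f ∧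
      Inv M (LinearMap.ker f) ∧ finrank Λ (LinearMap.ker f) = n :=
    ⟨_, Z₀, hZ₀, 0, fun g v => by simp, fun g v _ => by simp, rfl⟩
  obtain ⟨Z₁, hZ₁, f₁, hf₁, hinv, hn₁⟩ := Nat.find_spec hex
  refine ⟨Z₁, hZ₁, f₁, hf₁, ?_⟩
  rw [← LinearMap.ker_eq_bot]
  by_contra hne
  have hnt : Nontrivial (subrep M _ hinv).V := (Submodule.nontrivial_iff_ne_bot).2 hne
  obtain ⟨U, hU, hUi⟩ := exists_irr_sub _ hnt
  have hU' : Inv M (U.map (LinearMap.ker f₁).subtype) := by
    rintro g _ ⟨u, hu, rfl⟩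
    exact ⟨(subrep M _ hinv).ρ g u, hU g u hu, rfl⟩
  -- `U` as a subrepresentation of `M`
  let e : U ≃ₗ[Λ] U.map (LinearMap.ker f₁).subtype :=
    Submodule.equivMapOfInjective _ (LinearMap.ker f₁).subtype_injective U
  have he : ∀ g (u : U), (e ((subrep _ U hU).ρ g u)) = (subrep M _ hU').ρ g (e u) := by
    intro g u
    apply Subtype.ext
    rfl
  have hIrr : Irr (subrep M _ hU') := by
    refine ⟨e.symm.toEquiv.nontrivial_congr.2 hUi.1, ?_⟩
    intro W hW
    have := hUi.2 (W.comap e.toLinearMap) (by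
      intro g u hu
      show e ((subrep _ U hU).ρ g u) ∈ W
      rw [he]; exact hW g _ hu)
    rcases this with h0 | h0
    · left
      rw [Submodule.eq_bot_iff] at h0 ⊢
      intro w hw
      have := h0 (e.symm w) (by
        show e (e.symm w) ∈ W
        rwa [LinearEquiv.apply_symm_apply])
      rwa [LinearEquiv.symm_apply_eq, map_zero] at this
    · right
      rw [eq_top_iff]
      intro w _
      have h1 : e.symm w ∈ W.comap e.toLinearMap := by rw [h0]; trivial
      have h2 : e (e.symm w) ∈ W := h1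
      rwa [LinearEquiv.apply_symm_apply] at h2
  obtain ⟨Z₂, hZ₂, j, hj, hji⟩ := h _ hU' hIrr
  obtain ⟨p, hp, hpi⟩ := hM.retract (M := subrep M _ hU') (Submodule.subtype _)
    (fun _ _ => rfl) (Submodule.subtype_injective _)
  obtain ⟨K, hK, q, hq, hqi⟩ := hsum _ _ hZ₁ hZ₂
  have hEq : Equi (res hH M) K (q ∘ₗ (f₁.prod (j ∘ₗ p))) := by
    intro g v
    show q (f₁ ((res hH M).ρ g v), j (p ((res hH M).ρ g v))) = K.ρ g (q (f₁ v, j (p v)))
    rw [← hq.map, hf₁.map]
    have h3 : p ((res hH M).ρ g v) = (res hH (subrep M _ hU')).ρ g (p v) := hp _ v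
    rw [h3, hj.map]
    rfl
  have hker : ∀ v, v ∈ LinearMap.ker (q ∘ₗ (f₁.prod (j ∘ₗ p))) ↔ f₁ v = 0 ∧ p v = 0 := by
    intro v
    constructor
    · intro hv
      have h3 : q (f₁ v, j (p v)) = 0 := hv
      have h4 : ((f₁ v, j (p v)) : Z₁.V × Z₂.V) = 0 := hqi (by rw [h3]; exact (map_zero q).symm)
      exact ⟨congrArg Prod.fst h4, hji (by
        rw [map_zero]; exact congrArg Prod.snd h4)⟩
    · rintro ⟨h1, h2⟩
      show q (f₁ v, j (p v)) = 0
      rw [h1, h2, map_zero]
      exact map_zero q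
  have hinv' : Inv M (LinearMap.ker (q ∘ₗ (f₁.prod (j ∘ₗ p)))) := by
    intro g v hv
    rw [hker] at hv ⊢
    refine ⟨hinv g v hv.1, ?_⟩
    have := hp.map g v
    rw [hv.2, map_zero] at this
    exact this
  have h5 := Nat.find_min' hex ⟨K, hK, _, hEq, hinv', rfl⟩
  rw [← hn₁] at h5
  have hle : LinearMap.ker (q ∘ₗ (f₁.prod (j ∘ₗ p))) ≤ LinearMap.ker f₁ := fun v hv =>
    ((hker v).1 hv).1
  have h6 := Submodule.eq_of_le_of_finrank_le hle h5
  have := hUi.1
  obtain ⟨u, hu⟩ := exists_ne (0 : U)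
  apply hu
  have h7 : ((e u : U.map (LinearMap.ker f₁).subtype) : M.V) ∈ LinearMap.ker f₁ := u.1.2
  have h7' := (hker _).1 ((SetLike.ext_iff.1 h6 _).2 h7)
  have h8 := hpi (e u)
  have h9 : e u = 0 := by rw [← h8]; exact h7'.2
  exact (LinearEquiv.map_eq_zero_iff e).1 h9

end Reps

variable {P Ω : Type} [Field P] [Field Ω] [Algebra P Ω] {Λ : Type} [Field Λ]

theorem Theory.Case.refl (T : Theory P Ω Λ) (k : IntermediateField P Ω) : T.Case k k := by
  intro V hV _
  refine ⟨res (fixingSubgroup_le le_sup_left) V, T.coh_triv _ _ ?_, (Sub.refl _).subQuo⟩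
  intro g v
  have hg : (g : Gal(Ω/P)) ∈ (ac k).fixingSubgroup := fixingSubgroup_le le_sup_right g.2
  exact T.lisse_triv V hV (le_ac k) ⟨g, hg⟩ v

theorem adjoin_insert_eq (s : Set Ω) (x : Ω) :
    adjoin P (insert x s) = adjoin P s ⊔ adjoin P {x} := by
  rw [← adjoin_union, Set.union_singleton]

open IntermediateField.algebraAdjoinAdjoin in
theorem trdeg_adjoin_le (u : Set Ω) : Algebra.trdeg P (adjoin P u) ≤ Cardinal.mk u := by
  have h1 : Algebra.trdeg P (Algebra.adjoin P u) ≤ Cardinal.mk u := by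
    have := trdeg_le_of_surjective (R := P)
      (MvPolynomial.aeval (fun a : u => (⟨a, Algebra.subset_adjoin a.2⟩ : Algebra.adjoin P u)) :
        MvPolynomial u P →ₐ[P] Algebra.adjoin P u) ?_
    · rwa [MvPolynomial.trdeg_of_isDomain, Cardinal.lift_id] at this
    · rintro ⟨a, ha⟩
      have ha' := ha
      rw [Algebra.adjoin_eq_range] at ha'
      obtain ⟨p, hp⟩ := ha'
      refine ⟨p, Subtype.ext ?_⟩
      have e := MvPolynomial.comp_aeval_apply (R := P)
        (f := fun a : u => (⟨a, Algebra.subset_adjoin a.2⟩ : Algebra.adjoin P u))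
        (Algebra.adjoin P u).val p
      exact e.trans hp
  have h2 := trdeg_add_eq P (Algebra.adjoin P u) (A := adjoin P u)
  rw [trdeg_eq_zero (R := Algebra.adjoin P u) (A := adjoin P u), add_zero] at h2
  rw [← h2]; exact h1

theorem ncard_le {K : IntermediateField P Ω} {N : ℕ} (hK : Algebra.trdeg P K ≤ N) {u : Set Ω}
    (hu : u.Finite) (huK : u ⊆ K) (hi : AlgebraicIndependent P ((↑) : u → Ω)) : u.ncard ≤ N := by
  have h1 : AlgebraicIndependent P (fun a : u => (⟨a, huK a.2⟩ : K)) := by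
    rw [← K.val.algebraicIndependent_iff Subtype.val_injective]
    exact hi
  have h2 := h1.cardinalMk_le_trdeg.trans hK
  have := hu.fintype
  rw [Cardinal.mk_fintype] at h2
  have h3 : Fintype.card u ≤ N := by exact_mod_cast h2
  rwa [Set.ncard_eq_toFinset_card', Set.toFinset_card]

theorem Theory.LineFM.case {T : Theory P Ω Λ} {N : ℕ} (hL : T.Lafforgue) (h : T.LineFM N)
    {u : Set Ω} {x : Ω} (hu : u.Finite) (hc : u.ncard < N)
    (hi : AlgebraicIndependent P ((↑) : u → Ω)) (hx : Transcendental (adjoin P u) x) :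
    T.Case (adjoin P u) (adjoin P u ⊔ adjoin P {x}) := by
  by_cases hne : Finite P → u.Nonempty
  · intro V hV hirr
    exact h u _ x ⟨hu, hc, hne, hi, rfl, hx⟩ V hV hirr
  · rw [Classical.not_imp] at hne
    obtain ⟨hP, hne⟩ := hne
    rw [Set.not_nonempty_iff_eq_empty] at hne
    subst hne
    rw [adjoin_empty] at hx ⊢
    intro V hV hirr
    exact hL hP _ x rfl hx V hV hirr

theorem Theory.case_of_line [IsAlgClosed Ω] (T : Theory P Ω Λ) {N : ℕ} (hL : T.Lafforgue)
    (h : T.LineFM N) {s : Set Ω}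
    (hs : s.Finite) (t : Set Ω) (ht : t.Finite) (hc : (s ∪ t).ncard ≤ N)
    (hst : AlgebraicIndependent P ((↑) : (s ∪ t : Set Ω) → Ω)) :
    T.Case (adjoin P s) (adjoin P (s ∪ t)) := by
  induction t, ht using Set.Finite.induction_on with
  | empty =>
    rw [Set.union_empty]
    exact Theory.Case.refl T _
  | @insert x t hx ht ih =>
    have e : s ∪ insert x t = insert x (s ∪ t) := Set.union_insert
    by_cases hxs : x ∈ s ∪ t
    · rw [e, Set.insert_eq_of_mem hxs] at hst hc ⊢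
      exact ih hc hst
    rw [e] at hst hc ⊢
    rw [Set.ncard_insert_of_notMem hxs (hs.union ht)] at hc
    obtain ⟨h1, h2⟩ := (AlgebraicIndepOn.insert_iff (R := P) (x := (id : Ω → Ω)) hxs).1 hst
    rw [Set.image_id] at h2
    have h3 : Transcendental (adjoin P (s ∪ t)) x := transcendental_adjoin_iff.2 h2
    refine T.fibration (F := adjoin P (s ∪ t)) (x := x) (adjoin.mono P _ _ Set.subset_union_left)
      ⟨t, ht, adjoin_union P⟩ h3 (adjoin_insert_eq _ _) ?_ (ih (by omega) h1)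
    rw [adjoin_insert_eq]
    exact Theory.LineFM.case hL h (hs.union ht) (by omega) h1 h3

theorem exists_basis (s₀ : Set Ω) (hs₀ : s₀.Finite) : ∃ s : Set Ω, s.Finite ∧ s ⊆ s₀ ∧
    AlgebraicIndependent P ((↑) : s → Ω) ∧ ∀ a ∈ s₀, IsAlgebraic (adjoin P s) a := by
  induction s₀, hs₀ using Set.Finite.induction_on with
  | empty =>
    exact ⟨∅, Set.finite_empty, subset_rfl, algebraicIndependent_empty_type_iff.2
      (algebraMap P Ω).injective, by simp⟩
  | @insert x t hx ht ih =>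
    obtain ⟨s, hs, hst, hi, ha⟩ := ih
    by_cases hxa : IsAlgebraic (adjoin P s) x
    · refine ⟨s, hs, hst.trans (Set.subset_insert _ _), hi, ?_⟩
      rintro a (rfl | ha')
      · exact hxa
      · exact ha a ha'
    · refine ⟨insert x s, hs.insert x, Set.insert_subset_insert hst, ?_, ?_⟩
      · have h1 : Transcendental (Algebra.adjoin P s) x := transcendental_adjoin_iff.1 hxa
        have := AlgebraicIndepOn.insert (R := P) (x := (id : Ω → Ω)) (s := s) (i := x) hi (by
          rw [Set.image_id]; exact h1)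
        exact this
      · have hle : adjoin P s ≤ adjoin P (insert x s) := adjoin.mono P _ _ (Set.subset_insert _ _)
        rintro a (rfl | ha')
        · exact isAlgebraic_algebraMap
            (⟨a, subset_adjoin P _ (Set.mem_insert _ _)⟩ : adjoin P (insert a s))
        · exact isAlgebraic_mono hle (ha a ha')

theorem union_indep {k : IntermediateField P Ω} {s : Set Ω} (hs : s ⊆ k)
    (hi : AlgebraicIndependent P ((↑) : s → Ω)) (t : Set Ω) (ht : t.Finite)
    (hti : AlgebraicIndependent k ((↑) : t → Ω)) :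
    AlgebraicIndependent P ((↑) : (s ∪ t : Set Ω) → Ω) := by
  induction t, ht using Set.Finite.induction_on with
  | empty => rw [Set.union_empty]; exact hi
  | @insert x t hx ht ih =>
    obtain ⟨h1, h2⟩ := (AlgebraicIndepOn.insert_iff (R := k) (x := (id : Ω → Ω)) hx).1 hti
    rw [Set.image_id] at h2
    have h3 : Transcendental (Algebra.adjoin P (s ∪ t)) x := by
      intro h
      apply h2
      have hle : Algebra.adjoin P (s ∪ t) ≤ (Algebra.adjoin k t).restrictScalars P := by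
        rw [Algebra.adjoin_le_iff]
        rintro a (ha | ha)
        · have h4 : algebraMap k Ω ⟨a, hs ha⟩ ∈ Algebra.adjoin k t :=
            Subalgebra.algebraMap_mem _ _
          exact h4
        · have h4 : a ∈ Algebra.adjoin k t := Algebra.subset_adjoin ha
          exact h4
      refine isAlgebraic_mono' (Algebra.adjoin P (s ∪ t)) (Algebra.adjoin k t)
        Subtype.val_injective Subtype.val_injective ?_ h
      intro r
      exact ⟨⟨r, hle r.2⟩, rfl⟩
    have := AlgebraicIndepOn.insert (R := P) (x := (id : Ω → Ω)) (s := s ∪ t) (i := x) (ih h1) (by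
          rw [Set.image_id]; exact h3)
    rw [Set.union_insert]
    exact this

theorem Theory.geom_congr (T : Theory P Ω Λ) {k k' K : IntermediateField P Ω} (h : ac k = ac k')
    (V : FRep Λ K.fixingSubgroup) (hV : T.Geom k K V) : T.Geom k' K V := by
  have key : ∀ E (_ : ac k = E), ∃ H : FRep Λ (K ⊔ E).fixingSubgroup, T.Coh (K ⊔ E) H ∧
      SubQuo (res (fixingSubgroup_le (le_sup_left : K ≤ K ⊔ E)) V) H := by
    rintro _ rfl
    exact hV
  exact key _ h

theorem Theory.relative_of_line [IsAlgClosed Ω] (T : Theory P Ω Λ) {N : ℕ} (hL : T.Lafforgue)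
    (h : T.LineFM N) : T.RelativeFM N := by
  intro k K hk hK _ hN V hV hsemi
  obtain ⟨s₀, hs₀, hk'⟩ := hk
  rw [bot_sup_eq] at hk'
  obtain ⟨s, hs, hss₀, hi, halg⟩ := exists_basis (P := P) s₀ hs₀
  obtain ⟨t, ht, hti, hsep⟩ := hK
  have hsk : s ⊆ k := by
    rw [hk']
    exact hss₀.trans (subset_adjoin P s₀)
  have hst := union_indep hsk hi t ht hti
  have hle : adjoin P s ≤ k := adjoin_le_iff.2 hsk
  have hfin : FinExt (adjoin P s) k := by
    refine ⟨s₀, hs₀, halg, ?_⟩
    rw [hk', ← adjoin_union, Set.union_eq_right.2 hss₀]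
  have hfin1 : FinExt (adjoin P (s ∪ t)) (k ⊔ adjoin P t) := by
    have := hfin.sup (K := adjoin P (s ∪ t)) (adjoin.mono P _ _ Set.subset_union_left)
    have e : adjoin P (s ∪ t) ⊔ k = k ⊔ adjoin P t := by
      rw [adjoin_union, sup_right_comm, sup_eq_right.2 hle]
    rwa [e] at this
  have hfin2 : FinExt (adjoin P (s ∪ t)) K := hfin1.trans hsep.finExt
  have hc : (s ∪ t).ncard ≤ N := ncard_le hN (hs.union ht)
    ((subset_adjoin P _).trans hfin2.le) hst
  have hcase := (T.case_of_line hL h hs t ht hc hst).fin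
    (adjoin.mono P _ _ Set.subset_union_left) hfin2
  have hkK : k ≤ K := le_sup_left.trans hsep.finExt.le
  have hcase' : T.Case k K := by
    intro V hV hirr
    exact T.geom_congr hfin.ac_eq.symm V (hcase V (T.lisse_fin hfin hkK V hV) hirr)
  have hFG : FG k K := (show FG k (k ⊔ adjoin P t) from ⟨t, ht, rfl⟩).trans hsep.finExt.fg
  have hP : ac ⊥ ≤ K ⊔ ac k := (ac_mono bot_le).trans le_sup_right
  obtain ⟨Z, hZ, hsub⟩ := exists_sub_of_semi (fixingSubgroup_le (le_sup_left : K ≤ K ⊔ ac k))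
    (T.Coh (K ⊔ ac k)) (fun M N hM hN => T.coh_sum hP M N hM hN) V hsemi
    ⟨PUnit, 1⟩ (T.coh_triv _ _ (fun _ _ => rfl))
    (fun U hU hUi => by
      obtain ⟨H, hH, hHs⟩ := hcase' (subrep V U hU) (T.lisse_sub _ _ (subrep_sub V U hU) hV) hUi
      exact ⟨H, hH, hHs.sub (T.coh_semi hFG H hH)⟩)
  exact ⟨Z, hZ, hsub.subQuo⟩

theorem Theory.line_of_relative [IsAlgClosed Ω] (T : Theory P Ω Λ) {N : ℕ}
    (h : T.RelativeFM N) : T.LineFM N := by
  rintro s _ x ⟨hs, hc, _, hi, rfl, hx⟩ V hV hirr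
  refine h (adjoin P s) (adjoin P s ⊔ adjoin P {x}) ⟨s, hs, by rw [bot_sup_eq]⟩ ?_ ?_ ?_ V hV
    hirr.semi
  · refine ⟨{x}, Set.finite_singleton x, ?_, ⟨∅, Set.finite_empty, by simp, ?_⟩⟩
    · exact algebraicIndependent_unique_type_iff.2 hx
    · rw [adjoin_empty, sup_bot_eq]
  · intro τ hτ
    have hkk : FinExt (adjoin P s) (adjoin P s) := ⟨∅, Set.finite_empty, by simp, by
      rw [adjoin_empty, sup_bot_eq]⟩
    obtain ⟨σ, hσ⟩ := exists_lift hx rfl hkk ⟨τ, hτ⟩
    exact ⟨σ, fixingSubgroup_le le_sup_left σ.2, hσ⟩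
  · rw [← adjoin_insert_eq]
    refine (trdeg_adjoin_le _).trans ?_
    have h1 : (insert x s).Finite := hs.insert x
    have h2 := Set.ncard_insert_le x s
    have := h1.fintype
    rw [Cardinal.mk_fintype, ← Set.toFinset_card, ← Set.ncard_eq_toFinset_card']
    exact_mod_cast (by omega : (insert x s).ncard ≤ N)

theorem Theory.relative_iff_line [IsAlgClosed Ω] (T : Theory P Ω Λ) (hL : T.Lafforgue) (N : ℕ) :
    T.RelativeFM N ↔ T.LineFM N := ⟨T.line_of_relative, T.relative_of_line hL⟩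

/-- `x` is algebraic over `F(y)` for `y = x + f(x)⁻ᵖ` -/
theorem finExt_of_eq {F : IntermediateField P Ω} {x y : Ω} (hx : Transcendental F x)
    (f : Polynomial F) (hf : f ≠ 0) {p : ℕ} (hy : y = x + ((Polynomial.aeval x f)⁻¹) ^ p) :
    F ⊔ adjoin P {y} ≤ F ⊔ adjoin P {x} ∧ FinExt (F ⊔ adjoin P {y}) (F ⊔ adjoin P {x}) := by
  have hxm : x ∈ F ⊔ adjoin P {x} :=
    (le_sup_right : adjoin P {x} ≤ F ⊔ adjoin P {x}) (mem_adjoin_simple_self P x)
  have hym : y ∈ F ⊔ adjoin P {y} :=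
    (le_sup_right : adjoin P {y} ≤ F ⊔ adjoin P {y}) (mem_adjoin_simple_self P y)
  have hfm : Polynomial.aeval x f ∈ F ⊔ adjoin P {x} := by
    rw [Polynomial.aeval_eq_sum_range]
    refine sum_mem fun i _ => ?_
    rw [Algebra.smul_def]
    exact mul_mem ((le_sup_left : F ≤ F ⊔ adjoin P {x}) (f.coeff i).2) (pow_mem hxm i)
  have hle : F ⊔ adjoin P {y} ≤ F ⊔ adjoin P {x} := by
    refine sup_le le_sup_left ?_
    rw [adjoin_le_iff, Set.singleton_subset_iff, hy]
    exact add_mem hxm (pow_mem (inv_mem hfm) p)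
  refine ⟨hle, {x}, Set.finite_singleton x, ?_, ?_⟩
  · intro z hz
    have hz' : z = x := hz
    rw [hz']
    have hfx : Polynomial.aeval x f ≠ 0 := fun h0 => hx ⟨f, hf, h0⟩
    let ι : F →+* (F ⊔ adjoin P {y} : IntermediateField P Ω) :=
      (inclusion (le_sup_left : F ≤ F ⊔ adjoin P {y})).toRingHom
    have h1 : Polynomial.aeval x (f.map ι) = Polynomial.aeval x f := by
      rw [Polynomial.aeval_def, Polynomial.eval₂_map, Polynomial.aeval_def]
      rfl
    refine ⟨(Polynomial.C ⟨y, hym⟩ - Polynomial.X) * (f.map ι) ^ p - 1, ?_, ?_⟩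
    · intro h0
      have h2 : IsUnit (Polynomial.C (⟨y, hym⟩ : (F ⊔ adjoin P {y} : IntermediateField P Ω)) -
          Polynomial.X) := IsUnit.of_mul_eq_one _ (sub_eq_zero.1 h0)
      have h3 := Polynomial.natDegree_eq_zero_of_isUnit h2
      rw [← Polynomial.natDegree_neg, neg_sub, Polynomial.natDegree_X_sub_C] at h3
      exact one_ne_zero h3
    · rw [map_sub, map_mul, map_pow, map_sub, map_one, Polynomial.aeval_C, Polynomial.aeval_X, h1]
      have h2 : algebraMap (F ⊔ adjoin P {y} : IntermediateField P Ω) Ω ⟨y, hym⟩ = y := rfl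
      rw [h2, hy, add_sub_cancel_left, ← mul_pow, inv_mul_cancel₀ hfx, one_pow, sub_self]
  · apply le_antisymm
    · exact sup_le_sup_right le_sup_left _
    · exact sup_le hle le_sup_right

theorem transcendental_of_eq {F : IntermediateField P Ω} {x y : Ω} (hx : Transcendental F x)
    (f : Polynomial F) (hf : f ≠ 0) {p : ℕ} (hy : y = x + ((Polynomial.aeval x f)⁻¹) ^ p) :
    Transcendental F y := by
  intro h
  apply hx
  obtain ⟨-, h2⟩ := finExt_of_eq hx f hf hy
  have h3 : F ⊔ adjoin P {y} ≤ ac F := by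
    refine sup_le (le_ac F) ?_
    rw [adjoin_le_iff, Set.singleton_subset_iff]
    exact mem_ac.2 h
  have hxm : x ∈ F ⊔ adjoin P {x} :=
    (le_sup_right : adjoin P {x} ≤ F ⊔ adjoin P {x}) (mem_adjoin_simple_self P x)
  exact ac_trans (isAlgebraic_mono h3 (mem_ac.1 (h2.le_ac hxm)))

theorem Theory.line_of_affine [IsAlgClosed Ω] (T : Theory P Ω Λ) {N p : ℕ} (hp : p.Prime)
    (hP : CharP P p) (h : T.AffineLineFM N) : T.LineFM N := by
  rintro s F x ⟨hs, hc, hne, hi, hF, hx⟩ V hV hirr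
  obtain ⟨f, hf, hon⟩ := T.on_exists hx V hV
  obtain ⟨hle, hfin⟩ := finExt_of_eq hx f hf (p := p) rfl
  have hy := transcendental_of_eq hx f hf (p := p) rfl
  obtain ⟨t, ht, hcov⟩ := hfin.cosets (fixingSubgroup_le hle)
  obtain ⟨M, hM⟩ := exists_ind (fixingSubgroup_le hle) V t ht hcov
  have hMon := T.on_ind hp hP hx f hf rfl hle V M hon hM
  obtain ⟨W, hW, hWi⟩ := exists_irr_sub M (hM.nontrivial hirr.1)
  exact T.geom_of_ind hle hirr hM hW hWi
    (h s _ _ ⟨hs, hc, hne, hi, hF, hy⟩ (subrep M W hW) (T.on_sub _ _ (subrep_sub M W hW) hMon) hWi)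

theorem Theory.relative_iff_affine [IsAlgClosed Ω] (T : Theory P Ω Λ) (hL : T.Lafforgue) (N : ℕ)
    {p : ℕ} (hp : p.Prime) (hP : CharP P p) : T.RelativeFM N ↔ T.AffineLineFM N :=
  ⟨fun h s F x hv V hV hirr =>
    T.line_of_relative h s F x hv V (T.on_lisse hv.2.2.2.2.2 1 one_ne_zero V hV) hirr,
    fun h => T.relative_of_line hL (T.line_of_affine hp hP h)⟩

theorem Theory.relative_iff_threePoints [IsAlgClosed Ω] (T : Theory P Ω Λ) (h0 : CharZero P)
    (hP : ∀ S : Subfield P, S = ⊤) : T.RelativeFM 1 ↔ T.ThreePointsFM := by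
  have hinf : ¬ Finite P := fun h => by
    have : Infinite P := CharZero.infinite P
    exact not_finite P
  constructor
  · intro h F x hF hx V hV hirr
    have h1 := T.line_of_relative h
    have hne : twoPoints F ≠ 0 :=
      mul_ne_zero Polynomial.X_ne_zero (Polynomial.X_sub_C_ne_zero 1)
    exact h1 ∅ F x ⟨Set.finite_empty, by simp, fun h => absurd h hinf,
      algebraicIndependent_empty_type_iff.2 (algebraMap P Ω).injective,
      by rw [adjoin_empty]; exact hF, hx⟩ V (T.on_lisse hx _ hne V hV) hirr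
  · intro h
    refine T.relative_of_line (fun h => absurd h hinf) ?_
    rintro s F x ⟨hs, hc, _, hi, hFs, hx⟩ V hV hirr
    have hs0 : s = ∅ := by
      rw [← Set.ncard_eq_zero hs]; omega
    have hF : F = ⊥ := by rw [hFs, hs0, adjoin_empty]
    obtain ⟨f, hf, hon⟩ := T.on_exists hx V hV
    obtain ⟨y, hy, hfin, hB⟩ := T.on_belyi h0 hP hF hx f hf
    obtain ⟨t, ht, hcov⟩ := hfin.cosets (fixingSubgroup_le hfin.le)
    obtain ⟨M, hM⟩ := exists_ind (fixingSubgroup_le hfin.le) V t ht hcov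
    have hMon := hB hfin.le V M hon hM
    obtain ⟨W, hW, hWi⟩ := exists_irr_sub M (hM.nontrivial hirr.1)
    exact T.geom_of_ind hfin.le hirr hM hW hWi
      (h F y hF hy (subrep M W hW) (T.on_sub _ _ (subrep_sub M W hW) hMon) hWi)

end Pool.Agent.TH117.RFM
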