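import Pool.Agent.TH117.RFM.Defs

/-! # Representations -/

set_option autoImplicit false

namespace Pool.Agent.TH117.RFM

open Module

section Reps

variable {Λ : Type} [Field Λ] {G : Type} [Group G]

theorem ρ_inv_apply (M : FRep Λ G) (g : G) (v : M.V) : M.ρ g (M.ρ g⁻¹ v) = v := by
  have : M.ρ g (M.ρ g⁻¹ v) = (M.ρ g * M.ρ g⁻¹) v := rfl
  rw [this, ← map_mul, mul_inv_cancel, map_one]; rfl

theorem ρ_inv_apply' (M : FRep Λ G) (g : G) (v : M.V) : M.ρ g⁻¹ (M.ρ g v) = v := by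
  have : M.ρ g⁻¹ (M.ρ g v) = (M.ρ g⁻¹ * M.ρ g) v := rfl
  rw [this, ← map_mul, inv_mul_cancel, map_one]; rfl

theorem ρ_mul (M : FRep Λ G) (g h : G) (v : M.V) : M.ρ (g * h) v = M.ρ g (M.ρ h v) := by
  rw [map_mul]; rfl

theorem Equi.map {M N : FRep Λ G} {f : M.V →ₗ[Λ] N.V} (hf : Equi M N f) (g : G) (v : M.V) :
    f (M.ρ g v) = N.ρ g (f v) := hf g v

theorem Sub.refl (M : FRep Λ G) : Sub M M := ⟨LinearMap.id, fun _ _ => rfl, fun _ _ h => h⟩

theorem Sub.trans {M N K : FRep Λ G} (h : Sub M N) (h' : Sub N K) : Sub M K := by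
  obtain ⟨f, hf, hi⟩ := h
  obtain ⟨f', hf', hi'⟩ := h'
  exact ⟨f' ∘ₗ f, fun g v => by simp [hf g v, hf' g], hi'.comp hi⟩

theorem Sub.subQuo {M N : FRep Λ G} (h : Sub M N) : SubQuo M N :=
  ⟨M, h, LinearMap.id, fun _ _ => rfl, fun v => ⟨v, rfl⟩⟩

theorem Quo.subQuo {M N K : FRep Λ G} (h : Quo M N) (h' : Sub N K) : SubQuo M K := ⟨N, h', h⟩

/-- an invariant subspace as a representation -/
abbrev subrep (M : FRep Λ G) (W : Submodule Λ M.V) (hW : Inv M W) : FRep Λ G where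
  V := W
  ρ :=
    { toFun := fun g => (M.ρ g).restrict (hW g)
      map_one' := by ext v; simp
      map_mul' := fun a b => by ext v; simp }

theorem subrep_sub (M : FRep Λ G) (W : Submodule Λ M.V) (hW : Inv M W) : Sub (subrep M W hW) M :=
  ⟨W.subtype, fun _ _ => rfl, W.subtype_injective⟩

theorem exists_irr_sub (M : FRep Λ G) (hM : Nontrivial M.V) :
    ∃ W : Submodule Λ M.V, ∃ hW : Inv M W, Irr (subrep M W hW) := by
  classical
  have hex : ∃ n, ∃ W : Submodule Λ M.V, Inv M W ∧ W ≠ ⊥ ∧ finrank Λ W = n :=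
    ⟨_, ⊤, fun _ _ _ => trivial, top_ne_bot, rfl⟩
  obtain ⟨W, hW, hne, hn⟩ := Nat.find_spec hex
  refine ⟨W, hW, (Submodule.nontrivial_iff_ne_bot).2 hne, ?_⟩
  intro U hU
  by_cases h0 : U = ⊥
  · exact Or.inl h0
  right
  have hU' : Inv M (U.map W.subtype) := by
    rintro g _ ⟨u, hu, rfl⟩
    exact ⟨(subrep M W hW).ρ g u, hU g u hu, rfl⟩
  have h1 : U.map W.subtype ≠ ⊥ := by
    intro h
    apply h0
    exact (Submodule.map_injective_of_injective W.subtype_injective) (by rw [h, Submodule.map_bot])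
  have h2 := Nat.find_min' hex ⟨U.map W.subtype, hU', h1, rfl⟩
  rw [← hn] at h2
  have h4 : U.map W.subtype = W :=
    Submodule.eq_of_le_of_finrank_le (Submodule.map_subtype_le W U) h2
  rw [eq_top_iff]
  rintro ⟨w, hw⟩ -
  obtain ⟨u, hu, hu'⟩ := (h4.symm ▸ hw : w ∈ U.map W.subtype)
  have : u = ⟨w, hw⟩ := Subtype.ext hu'
  rw [← this]; exact hu

theorem Irr.quo {M N : FRep Λ G} (hM : Irr M) (f : N.V →ₗ[Λ] M.V) (hf : Equi N M f)
    (h0 : f ≠ 0) : Quo M N := by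
  refine ⟨f, hf, ?_⟩
  rw [← LinearMap.range_eq_top]
  refine (hM.2 (LinearMap.range f) ?_).resolve_left ?_
  · rintro g _ ⟨v, rfl⟩
    exact ⟨N.ρ g v, hf g v⟩
  · intro h
    exact h0 (LinearMap.range_eq_bot.1 h)

/-- an equivariant projection -/
theorem Semi.retract {M N : FRep Λ G} (hN : Semi N) (f : M.V →ₗ[Λ] N.V) (hf : Equi M N f)
    (hi : Function.Injective f) : ∃ p : N.V →ₗ[Λ] M.V, Equi N M p ∧ ∀ v, p (f v) = v := by
  obtain ⟨W', hW', hc⟩ := hN (LinearMap.range f) (by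
    rintro g _ ⟨v, rfl⟩
    exact ⟨M.ρ g v, hf g v⟩)
  let e := LinearEquiv.ofInjective f hi
  let q := Submodule.projectionOnto _ _ hc
  have hp : ∀ v, (e.symm.toLinearMap ∘ₗ q) (f v) = v := by
    intro v
    have : q (f v) = e v := by
      have := Submodule.projectionOnto_apply_left hc (e v)
      simpa [q, e] using this
    simp [this]
  refine ⟨e.symm.toLinearMap ∘ₗ q, ?_, hp⟩
  intro g v
  show (e.symm.toLinearMap ∘ₗ q) (N.ρ g v) = M.ρ g ((e.symm.toLinearMap ∘ₗ q) v)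
  obtain ⟨a, ha, b, hb, rfl⟩ := Submodule.mem_sup.1 ((hc.sup_eq_top ▸ Submodule.mem_top) :
    v ∈ LinearMap.range f ⊔ W')
  obtain ⟨u, rfl⟩ := ha
  have hz : ∀ b ∈ W', (e.symm.toLinearMap ∘ₗ q) b = 0 := by
    intro b hb
    have : q b = 0 := (Submodule.projectionOnto_apply_eq_zero_iff hc).2 hb
    simp [this]
  rw [map_add, map_add, map_add, hz _ hb, hz (N.ρ g b) (hW' g b hb), ← hf.map g u, hp, hp,
    add_zero, add_zero]

theorem SubQuo.sub {M N : FRep Λ G} (hN : Semi N) (h : SubQuo M N) : Sub M N := by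
  obtain ⟨T, ⟨i, hi, hinj⟩, q, hq, hsurj⟩ := h
  obtain ⟨W', hW', hc⟩ := hN ((LinearMap.ker q).map i) (by
    rintro g _ ⟨v, hv, rfl⟩
    refine ⟨T.ρ g v, ?_, hi g v⟩
    have hv' : q v = 0 := hv
    show q (T.ρ g v) = 0
    rw [hq.map g v, hv', map_zero])
  let T' := W'.comap i
  let r : T' →ₗ[Λ] M.V := q ∘ₗ T'.subtype
  have hr : Function.Bijective r := by
    constructor
    · rw [← LinearMap.ker_eq_bot, Submodule.eq_bot_iff]
      rintro ⟨t, ht⟩ h0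
      have h1 : q t = 0 := h0
      have h2 : i t ∈ (LinearMap.ker q).map i ⊓ W' := ⟨⟨t, h1, rfl⟩, ht⟩
      rw [hc.inf_eq_bot, Submodule.mem_bot] at h2
      exact Subtype.ext (hinj (by rw [h2]; simp))
    · intro m
      obtain ⟨t, rfl⟩ := hsurj m
      obtain ⟨a, ha, b, hb, hab⟩ := Submodule.mem_sup.1 ((hc.sup_eq_top ▸ Submodule.mem_top) :
        i t ∈ (LinearMap.ker q).map i ⊔ W')
      obtain ⟨t0, ht0, rfl⟩ := ha
      refine ⟨⟨t - t0, ?_⟩, ?_⟩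
      · show i (t - t0) ∈ W'
        rw [map_sub, ← hab, add_sub_cancel_left]; exact hb
      · show q (t - t0) = q t
        rw [map_sub, (ht0 : q t0 = 0), sub_zero]
  let e := LinearEquiv.ofBijective r hr
  refine ⟨i ∘ₗ T'.subtype ∘ₗ e.symm.toLinearMap, ?_, ?_⟩
  · intro g v
    obtain ⟨t, rfl⟩ := e.surjective v
    have h1 : M.ρ g (e t) = e ⟨T.ρ g t, by
        show i (T.ρ g t) ∈ W'
        rw [hi.map g t]; exact hW' g _ t.2⟩ := by
      show M.ρ g (q t) = q (T.ρ g t)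
      rw [hq.map]
    show (i ∘ₗ T'.subtype ∘ₗ e.symm.toLinearMap) (M.ρ g (e t)) = _
    rw [h1]
    simp only [LinearMap.comp_apply, LinearEquiv.coe_coe, LinearEquiv.symm_apply_apply,
      Submodule.subtype_apply]
    exact hi g t
  · exact hinj.comp (T'.subtype_injective.comp e.symm.injective)

theorem lhom_sub {N₀ N₁ W : FRep Λ G} (p : N₁.V →ₗ[Λ] N₀.V) (hp : Equi N₁ N₀ p)
    (hs : Function.Surjective p) : Sub (lhom N₀ W) (lhom N₁ W) := by
  refine ⟨LinearMap.lcomp Λ W.V p, ?_, ?_⟩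
  · intro g φ
    apply LinearMap.ext
    intro v
    show W.ρ g (φ (N₀.ρ g⁻¹ (p v))) = W.ρ g (φ (p (N₁.ρ g⁻¹ v)))
    rw [hp]
  · intro φ φ' h
    apply LinearMap.ext
    intro v
    obtain ⟨u, rfl⟩ := hs v
    exact congrArg (fun f : N₁.V →ₗ[Λ] W.V => f u) h

variable {A : Type} [Group A]

theorem Sub.res {H H' : Subgroup A} (h : H ≤ H') {M N : FRep Λ H'} (hs : Sub M N) :
    Sub (RFM.res h M) (RFM.res h N) := by
  obtain ⟨f, hf, hi⟩ := hs
  exact ⟨f, fun g v => hf _ v, hi⟩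

theorem Quo.res {H H' : Subgroup A} (h : H ≤ H') {M N : FRep Λ H'} (hs : Quo M N) :
    Quo (RFM.res h M) (RFM.res h N) := by
  obtain ⟨f, hf, hi⟩ := hs
  exact ⟨f, fun g v => hf _ v, hi⟩

theorem SubQuo.res {H H' : Subgroup A} (h : H ≤ H') {M N : FRep Λ H'} (hs : SubQuo M N) :
    SubQuo (RFM.res h M) (RFM.res h N) := by
  obtain ⟨T, h1, h2⟩ := hs
  exact ⟨_, h1.res h, h2.res h⟩

theorem subQuo_of_quo_sub {M N K : FRep Λ G} (h : Quo M N) (h' : SubQuo N K) : SubQuo M K := by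
  obtain ⟨T, h1, q, hq, hs⟩ := h'
  obtain ⟨f, hf, hi⟩ := h
  exact ⟨T, h1, f ∘ₗ q, fun g v => by simp [hq g v, hf g], hi.comp hs⟩

/-- representations of `H` in a class `C` which receive an injection from an irreducible
representation of the larger group `G'` -/
theorem exists_sub_of_ne_zero {H G' : Subgroup A} (hH : H ≤ G') (C : FRep Λ H → Prop)
    (hn : ∀ σ ∈ G', ∀ g ∈ H, σ⁻¹ * g * σ ∈ H)
    (hconj : ∀ σ (hσ : σ ∈ G'), ∀ M, C M → C (conj σ (hn σ hσ) M))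
    (hsum : ∀ M N, C M → C N → ∃ K, C K ∧ Sub (dsum M N) K)
    (M : FRep Λ G') (hM : Irr M) (Z : FRep Λ H) (hZ : C Z) (f : M.V →ₗ[Λ] Z.V)
    (hf : Equi (res hH M) Z f) (h0 : f ≠ 0) : ∃ Z', C Z' ∧ Sub (res hH M) Z' := by
  classical
  have hex : ∃ n, ∃ Z, C Z ∧ ∃ f : M.V →ₗ[Λ] Z.V, Equi (res hH M) Z f ∧
      finrank Λ (LinearMap.ker f) = n := ⟨_, Z, hZ, f, hf, rfl⟩
  obtain ⟨Z₁, hZ₁, f₁, hf₁, hn₁⟩ := Nat.find_spec hex
  refine ⟨Z₁, hZ₁, f₁, hf₁, ?_⟩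
  rw [← LinearMap.ker_eq_bot]
  refine (hM.2 _ ?_).resolve_right ?_
  · intro σ v hv
    -- the conjugate by `σ`
    let f' : M.V →ₗ[Λ] (conj (σ⁻¹ : A) (hn σ⁻¹ (G'.inv_mem σ.2)) Z₁).V := f₁ ∘ₗ M.ρ σ
    have hf' : Equi (res hH M) (conj (σ⁻¹ : A) (hn σ⁻¹ (G'.inv_mem σ.2)) Z₁) f' := by
      intro g v
      show f₁ (M.ρ σ (M.ρ (Subgroup.inclusion hH g) v)) = _
      have h1 : M.ρ σ (M.ρ (Subgroup.inclusion hH g) v) =
          M.ρ (Subgroup.inclusion hH ⟨(σ : A)⁻¹⁻¹ * g * (σ : A)⁻¹,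
            hn σ⁻¹ (G'.inv_mem σ.2) g g.2⟩) (M.ρ σ v) := by
        rw [← ρ_mul, ← ρ_mul]
        congr 2
        apply Subtype.ext
        simp [mul_assoc]
      rw [h1]
      exact hf₁ _ _
    obtain ⟨K, hK, j, hj, hji⟩ := hsum _ _ hZ₁ (hconj _ (G'.inv_mem σ.2) _ hZ₁)
    have hEq : Equi (res hH M) K (j ∘ₗ (f₁.prod f')) := by
      intro g v
      show j (f₁ ((res hH M).ρ g v), f' ((res hH M).ρ g v)) = K.ρ g (j (f₁ v, f' v))
      rw [← hj.map, hf₁.map, hf'.map]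
      rfl
    have h2 := Nat.find_min' hex ⟨K, hK, _, hEq, rfl⟩
    rw [← hn₁] at h2
    have hker : LinearMap.ker (j ∘ₗ (f₁.prod f')) ≤ LinearMap.ker f₁ := by
      intro v hv
      have h3 : j (f₁ v, f' v) = 0 := hv
      have h4 : ((f₁ v, f' v) : Z₁.V × _) = 0 := hji (by rw [h3]; exact (map_zero j).symm)
      exact congrArg Prod.fst h4
    have h5 := Submodule.eq_of_le_of_finrank_le hker h2
    rw [← h5] at hv
    have h3 : j (f₁ v, f' v) = 0 := hv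
    have h4 : ((f₁ v, f' v) : Z₁.V × _) = 0 := hji (by rw [h3]; exact (map_zero j).symm)
    exact congrArg Prod.snd h4
  · intro h
    have h2 := Nat.find_min' hex ⟨Z, hZ, f, hf, rfl⟩
    rw [← hn₁, h, finrank_top] at h2
    have h3 : LinearMap.ker f = ⊤ := Submodule.eq_top_of_finrank_eq
      (le_antisymm (Submodule.finrank_le _) h2)
    exact h0 (LinearMap.ker_eq_top.1 h3)

end Reps

end Pool.Agent.TH117.RFM
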